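import Mathlib

set_option autoImplicit false

open Pointwise

namespace Pool.Agent.Lib.MP_137890_nt

/-- Distance to the nearest integer. -/
noncomputable def nrm (x : ℝ) : ℝ := |x - round x|

lemma nrm_nonneg (x : ℝ) : 0 ≤ nrm x := abs_nonneg _

lemma nrm_le (x : ℝ) (m : ℤ) : nrm x ≤ |x - m| := round_le x m

lemma nrm_le_iff {x ε : ℝ} : nrm x ≤ ε ↔ ∃ m : ℤ, |x - m| ≤ ε :=
  ⟨fun h => ⟨round x, h⟩, fun ⟨m, h⟩ => (nrm_le x m).trans h⟩

lemma nrm_le_abs (x : ℝ) : nrm x ≤ |x| := by simpa using nrm_le x 0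

lemma nrm_add_le (x y : ℝ) : nrm (x + y) ≤ nrm x + nrm y := by
  refine (nrm_le (x + y) (round x + round y)).trans ?_
  have : x + y - ((round x + round y : ℤ) : ℝ) = (x - round x) + (y - round y) := by
    push_cast; ring
  rw [this]
  exact abs_add_le _ _

lemma nrm_neg (x : ℝ) : nrm (-x) = nrm x := by
  have key : ∀ y : ℝ, nrm (-y) ≤ nrm y := by
    intro y
    refine (nrm_le (-y) (-round y)).trans (le_of_eq ?_)
    have : -y - ((-round y : ℤ) : ℝ) = -(y - round y) := by push_cast; ring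
    rw [this, abs_neg]; rfl
  refine le_antisymm (key x) ?_
  simpa using key (-x)

lemma nrm_sub_le (x y : ℝ) : nrm (x - y) ≤ nrm x + nrm y := by
  rw [sub_eq_add_neg]
  simpa [nrm_neg] using nrm_add_le x (-y)

lemma nrm_add_int (x : ℝ) (m : ℤ) : nrm (x + m) = nrm x := by
  unfold nrm
  rw [round_add_intCast]
  push_cast
  congr 1
  ring

lemma nrm_congr {x y : ℝ} (m : ℤ) (h : x = y + m) : nrm x = nrm y := by
  rw [h, nrm_add_int]

lemma nrm_int (m : ℤ) : nrm (m : ℝ) = 0 := by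
  unfold nrm
  simp

lemma nrm_eq_abs {x : ℝ} (h : |x| < 1 / 2) : nrm x = |x| := by
  unfold nrm
  have : round x = 0 := by
    rw [round_eq_zero_iff]
    obtain ⟨h1, h2⟩ := abs_lt.mp h
    exact ⟨by linarith, h2⟩
  simp [this]

lemma nrm_int_mul_le (t : ℤ) (x : ℝ) : nrm (t * x) ≤ |(t : ℝ)| * nrm x := by
  refine (nrm_le (t * x) (t * round x)).trans (le_of_eq ?_)
  have : (t : ℝ) * x - ((t * round x : ℤ) : ℝ) = t * (x - round x) := by push_cast; ring
  rw [this, abs_mul]; rfl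

lemma continuous_nrm : Continuous nrm := by
  have : LipschitzWith 1 nrm := by
    refine LipschitzWith.of_le_add fun x y => ?_
    have h := nrm_add_le y (x - y)
    have h2 := nrm_le_abs (x - y)
    rw [Real.dist_eq]
    have : y + (x - y) = x := by ring
    rw [this] at h
    linarith
  exact this.continuous

lemma int_of_nrm_eq_zero {x : ℝ} (h : nrm x = 0) : ∃ m : ℤ, x = m := by
  refine ⟨round x, ?_⟩
  unfold nrm at h
  linarith [abs_eq_zero.mp h]

/-- The standing hypotheses on a set of integers. -/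
structure Setup (A : Set ℤ) (r : ℕ) (a0 N0 : ℤ) : Prop where
  mem : a0 ∈ A
  nonneg : ∀ a ∈ A, 0 ≤ a
  cov : ∀ n : ℤ, N0 ≤ n → ∃ j : ℕ, j ≤ r ∧ n ∈ j • A
  gen : ∃ k : ℕ, ∃ u ∈ k • A, ∃ v ∈ k • A, u - v = 1

lemma mem_succ_nsmul {A : Set ℤ} {j : ℕ} {n : ℤ} :
    n ∈ (j + 1) • A ↔ ∃ u ∈ j • A, ∃ a ∈ A, u + a = n := by
  rw [succ_nsmul]; exact Set.mem_add

lemma add_mem_add_nsmul {A : Set ℤ} {i j : ℕ} {u v : ℤ} (hu : u ∈ i • A) (hv : v ∈ j • A) :
    u + v ∈ (i + j) • A := by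
  rw [add_nsmul]; exact Set.add_mem_add hu hv

lemma mul_mem_nsmul {A : Set ℤ} {a : ℤ} (ha : a ∈ A) (i : ℕ) : (i : ℤ) * a ∈ i • A := by
  induction i with
  | zero => simp
  | succ i ih =>
    rw [mem_succ_nsmul]
    exact ⟨_, ih, a, ha, by push_cast; ring⟩

lemma shift_mem_nsmul {A : Set ℤ} {a : ℤ} (ha : a ∈ A) {i j : ℕ} (hij : i ≤ j) {u : ℤ}
    (hu : u ∈ i • A) : u + ((j - i : ℕ) : ℤ) * a ∈ j • A := by
  have := add_mem_add_nsmul hu (mul_mem_nsmul ha (j - i))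
  rwa [Nat.add_sub_cancel' hij] at this

/-- Induction principle for differences of two sums of the same length. -/
lemma diff_induction {A : Set ℤ} (P : ℕ → ℤ → Prop) (h0 : P 0 0)
    (hs : ∀ j d, P j d → ∀ a ∈ A, ∀ a' ∈ A, P (j + 1) (d + (a - a'))) :
    ∀ j : ℕ, ∀ u ∈ j • A, ∀ v ∈ j • A, P j (u - v) := by
  intro j
  induction j with
  | zero =>
    intro u hu v hv
    simp at hu hv
    subst hu hv
    simpa using h0
  | succ j ih =>
    intro u hu v hv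
    obtain ⟨u', hu', a, ha, rfl⟩ := mem_succ_nsmul.mp hu
    obtain ⟨v', hv', a', ha', rfl⟩ := mem_succ_nsmul.mp hv
    have := hs j _ (ih u' hu' v' hv') a ha a' ha'
    convert this using 1
    ring

lemma Setup.exists_near {A : Set ℤ} {r : ℕ} {a0 N0 : ℤ} (S : Setup A r a0 N0) (n : ℤ)
    (hn : N0 ≤ n) : ∃ i : ℕ, i ≤ r ∧ n + i * a0 ∈ r • A := by
  obtain ⟨j, hj, h⟩ := S.cov n hn
  exact ⟨r - j, Nat.sub_le _ _, shift_mem_nsmul S.mem hj h⟩

end Pool.Agent.Lib.MP_137890_nt
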