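import Mathlib

set_option autoImplicit false

namespace Pool.Agent.Lib.MP_137890_nt

/-- The lattice spanned by `(l, -y)` and `(-w, h)` covers the plane with the triangle of side `R`. -/
def Cov (R l y w h : ℝ) : Prop :=
  ∀ u v : ℝ, ∃ a b : ℤ, 0 ≤ u - (a * l - b * w) ∧ 0 ≤ v - (-(a * y) + b * h) ∧
    (u - (a * l - b * w)) + (v - (-(a * y) + b * h)) ≤ R

lemma Cov.swap {R l y w h : ℝ} (H : Cov R l y w h) : Cov R h w y l := by
  intro u v
  obtain ⟨a, b, h1, h2, h3⟩ := H v u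
  exact ⟨b, a, by linarith, by linarith, by linarith⟩

lemma Cov.corner {R l y w h : ℝ} (H : Cov R l y w h) (hw : 0 ≤ w) (hy : 0 ≤ y)
    (hwl : w ≤ l) (hyh : y ≤ h) (hyl : y ≤ l) (hwh : w ≤ h) : l + h - y ≤ R := by
  refine le_of_forall_pos_le_add fun η hη => ?_
  obtain ⟨a, b, h1, h2, h3⟩ := H (l - η / 2) (h - y - η / 2)
  have hl : 0 ≤ l := hw.trans hwl
  have hh : 0 ≤ h := hy.trans hyh
  have ha : a ≤ 0 := by
    by_contra hc
    have ha1 : (1 : ℤ) ≤ a := by omega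
    have ha1' : (1 : ℝ) ≤ a := by exact_mod_cast ha1
    have e1 : ((a : ℝ) - 1) * l < b * w := by nlinarith
    have hb0 : (0 : ℝ) < b := by
      by_contra hb
      push Not at hb
      have : (b : ℝ) * w ≤ 0 := mul_nonpos_of_nonpos_of_nonneg hb hw
      have : 0 ≤ ((a : ℝ) - 1) * l := mul_nonneg (by linarith) hl
      linarith
    have e2 : ((a : ℝ) - 1) * l < b * l := lt_of_lt_of_le e1 (by nlinarith)
    have e3 : (a : ℝ) - 1 < b := lt_of_mul_lt_mul_right e2 hl
    have e3' : a - 1 < b := by exact_mod_cast e3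
    have e4 : ((b : ℝ) - 1) * h < (a - 1) * y := by nlinarith
    have e5 : ((b : ℝ) - 1) * h < (a - 1) * h := lt_of_lt_of_le e4 (by nlinarith)
    have e6 : (b : ℝ) - 1 < a - 1 := lt_of_mul_lt_mul_right e5 hh
    have e6' : b - 1 < a - 1 := by exact_mod_cast e6
    omega
  have ha' : (a : ℝ) ≤ 0 := by exact_mod_cast ha
  have hb : b ≤ 0 := by
    have e4 : ((b : ℝ) - 1) * h < (a - 1) * y := by nlinarith
    have e5 : ((a : ℝ) - 1) * y ≤ 0 := mul_nonpos_of_nonpos_of_nonneg (by linarith) hy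
    have e6 : ((b : ℝ) - 1) * h < 0 * h := by linarith
    have e7 : (b : ℝ) - 1 < 0 := lt_of_mul_lt_mul_right e6 hh
    have e8 : b - 1 < 0 := by exact_mod_cast e7
    omega
  have hb' : (b : ℝ) ≤ 0 := by exact_mod_cast hb
  have e1 : (a : ℝ) * (l - y) ≤ 0 := mul_nonpos_of_nonpos_of_nonneg ha' (by linarith)
  have e2 : (b : ℝ) * (h - w) ≤ 0 := mul_nonpos_of_nonpos_of_nonneg hb' (by linarith)
  nlinarith

lemma Cov.final {R l y w h : ℝ} (H : Cov R l y w h) (hw : 0 ≤ w) (hy : 0 ≤ y)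
    (hwl : w ≤ l) (hyh : y ≤ h) (hyl : y ≤ l) (hwh : w ≤ h) : 3 * (l * h - w * y) ≤ R ^ 2 := by
  have h1 := H.corner hw hy hwl hyh hyl hwh
  have h2 := H.swap.corner hy hw hyh hwl hwh hyl
  rcases le_total w y with hwy | hwy
  · have e0 : 0 ≤ l + h - w := by linarith
    have e1 : (l + h - w) ^ 2 ≤ R ^ 2 := by
      apply pow_le_pow_left₀ e0; linarith
    have e2 : w * w ≤ w * y := mul_le_mul_of_nonneg_left hwy hw
    nlinarith [sq_nonneg (l + h - 4 * w), sq_nonneg (l - h)]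
  · have e0 : 0 ≤ l + h - y := by linarith
    have e1 : (l + h - y) ^ 2 ≤ R ^ 2 := by
      apply pow_le_pow_left₀ e0; linarith
    have e2 : y * y ≤ w * y := mul_le_mul_of_nonneg_right hwy hy
    nlinarith [sq_nonneg (l + h - 4 * y), sq_nonneg (l - h)]

lemma Cov.descent {R ε : ℝ} (hε : 0 < ε) : ∀ (n : ℕ) (l y w h : ℝ), Cov R l y w h → 0 ≤ y → 0 ≤ w →
    y ≤ l → ε ≤ l → w + ε ≤ h → y + w ≤ n * ε → 3 * (l * h - w * y) ≤ R ^ 2 := by
  intro n
  induction n with
  | zero =>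
    intro l y w h H hy hw hyl hl hh hn
    have hy0 : y = 0 := by simp at hn; linarith
    have hw0 : w = 0 := by simp at hn; linarith
    exact H.final hw hy (by linarith) (by linarith) hyl (by linarith)
  | succ n ih =>
    intro l y w h H hy hw hyl hl hh hn
    push_cast at hn
    by_cases h1 : y ≤ h
    · by_cases h2 : w ≤ l
      · exact H.final hw hy h2 h1 hyl (by linarith)
      · push Not at h2
        have H' : Cov R l y (w - l) (h - y) := by
          intro u v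
          obtain ⟨a, b, e1, e2, e3⟩ := H u v
          refine ⟨a - b, b, ?_, ?_, ?_⟩ <;> push_cast <;> nlinarith
        have := ih l y (w - l) (h - y) H' hy (by linarith) hyl hl (by linarith) (by linarith)
        nlinarith
    · push Not at h1
      have H' : Cov R (l - w) (y - h) w h := by
        intro u v
        obtain ⟨a, b, e1, e2, e3⟩ := H u v
        refine ⟨a, b - a, ?_, ?_, ?_⟩ <;> push_cast <;> nlinarith
      have := ih (l - w) (y - h) w h H' (by linarith) hw (by linarith) (by linarith) hh (by linarith)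
      nlinarith

/-- If the arcs `j x + [0, (j+1) ε]`, `0 ≤ j ≤ r`, cover the circle `ℝ / ℤ`, then `3 ≤ (r+2)² ε`. -/
theorem arcs_cover (x ε : ℝ) (r : ℕ) (hε : 0 < ε)
    (H : ∀ y : ℝ, ∃ j : ℕ, j ≤ r ∧ ∃ m : ℤ, 0 ≤ y - j * x - m ∧ y - j * x - m ≤ (j + 1) * ε) :
    3 ≤ ((r : ℝ) + 2) ^ 2 * ε := by
  by_cases h1 : 1 ≤ ε
  · have : (0 : ℝ) ≤ r := Nat.cast_nonneg r
    nlinarith
  push Not at h1
  set w := Int.fract x with hwdef
  have hw0 : 0 ≤ w := Int.fract_nonneg x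
  have hw1 : w < 1 := Int.fract_lt_one x
  have hx : x = ⌊x⌋ + w := by rw [hwdef]; exact (Int.floor_add_fract x).symm
  have HC : Cov (((r : ℝ) + 2) * ε) 1 1 w (w + ε) := by
    intro u v
    set s := (u + v) / ε with hs
    have hs' : u + v = s * ε := by rw [hs]; field_simp
    set j0 : ℤ := ⌊s⌋ - 1 with hj0
    have e1 : (j0 : ℝ) + 1 ≤ s := by rw [hj0]; push_cast; linarith [Int.floor_le s]
    have e2 : s < (j0 : ℝ) + 2 := by rw [hj0]; push_cast; linarith [Int.lt_floor_add_one s]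
    obtain ⟨j, hj, m, f1, f2⟩ := H (j0 * x + u)
    have hj' : (j : ℝ) ≤ r := by exact_mod_cast hj
    have key : u - ((((j - j0) * ⌊x⌋ + m : ℤ) : ℝ) * 1 - ((j0 - j : ℤ) : ℝ) * w)
        = j0 * x + u - j * x - m := by
      push_cast
      have : (j0 : ℝ) * x - j * x = (j0 - j) * (⌊x⌋ + w) := by rw [← hx]; ring
      linarith
    have key2 : (u - ((((j - j0) * ⌊x⌋ + m : ℤ) : ℝ) * 1 - ((j0 - j : ℤ) : ℝ) * w))
        + (v - (-((((j - j0) * ⌊x⌋ + m : ℤ) : ℝ) * 1) + ((j0 - j : ℤ) : ℝ) * (w + ε)))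
        = (s - j0 + j) * ε := by
      push_cast
      linarith
    refine ⟨(j - j0) * ⌊x⌋ + m, j0 - j, ?_, ?_, ?_⟩
    · rw [key]; exact f1
    · have e3 : ((j : ℝ) + 1) * ε ≤ (s - j0 + j) * ε :=
        mul_le_mul_of_nonneg_right (by linarith) hε.le
      rw [key] at key2
      linarith
    · rw [key2]
      exact mul_le_mul_of_nonneg_right (by linarith) hε.le
  obtain ⟨n, hn⟩ := exists_nat_ge (2 / ε)
  have hn' : 2 ≤ n * ε := by rwa [div_le_iff₀ hε] at hn
  have := Cov.descent hε n 1 1 w (w + ε) HC zero_le_one hw0 le_rfl h1.le le_rfl (by linarith)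
  have e : ε * 3 ≤ ε * (((r : ℝ) + 2) ^ 2 * ε) := by nlinarith
  exact le_of_mul_le_mul_left e hε

end Pool.Agent.Lib.MP_137890_nt
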