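import Mathlib
import Pool.Agent.Lib.MP_137890_nt.Basic

set_option autoImplicit false

open Finset Real

namespace Pool.Agent.Lib.MP_137890_nt

/-- The additive character `exp (2 π i x)`. -/
noncomputable def ee (x : ℝ) : ℂ := Complex.exp (Complex.I * ((2 * π * x : ℝ) : ℂ))

lemma ee_add (x y : ℝ) : ee (x + y) = ee x * ee y := by
  unfold ee
  rw [← Complex.exp_add]
  congr 1
  push_cast
  ring

lemma ee_int (m : ℤ) : ee m = 1 := by
  unfold ee
  rw [← Complex.exp_int_mul_two_pi_mul_I m]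
  congr 1
  push_cast
  ring

lemma ee_zero : ee 0 = 1 := by simpa using ee_int 0

lemma norm_ee (x : ℝ) : ‖ee x‖ = 1 := by
  unfold ee
  rw [mul_comm]
  exact Complex.norm_exp_ofReal_mul_I _

lemma conj_ee (x : ℝ) : (starRingEnd ℂ) (ee x) = ee (-x) := by
  unfold ee
  rw [← Complex.exp_conj, map_mul, Complex.conj_ofReal, Complex.conj_I]
  congr 1
  push_cast
  ring

lemma continuous_ee : Continuous ee := by
  unfold ee
  fun_prop

lemma ee_sub_round (x : ℝ) : ee x = ee (x - round x) := by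
  have : x = (x - round x) + (round x : ℤ) := by ring
  conv_lhs => rw [this, ee_add, ee_int, mul_one]

lemma norm_ee_sub_one_le (x : ℝ) : ‖ee x - 1‖ ≤ 7 * nrm x := by
  rw [ee_sub_round]
  unfold ee nrm
  refine Real.norm_exp_I_mul_ofReal_sub_one_le.trans ?_
  rw [Real.norm_eq_abs, abs_mul, abs_of_pos (by positivity : (0 : ℝ) < 2 * π)]
  have := Real.pi_lt_d2
  have := abs_nonneg (x - round x)
  nlinarith

lemma le_norm_ee_sub_one (x : ℝ) : 4 * nrm x ≤ ‖ee x - 1‖ := by
  rw [ee_sub_round]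
  unfold ee nrm
  rw [Complex.norm_exp_I_mul_ofReal_sub_one, Real.norm_eq_abs, abs_mul, abs_two]
  set u := x - round x with hu
  have h1 : |u| ≤ 1 / 2 := abs_sub_round x
  have e : 2 * π * u / 2 = π * u := by ring
  rw [e]
  have h2 : |π * u| ≤ π / 2 := by
    rw [abs_mul, abs_of_pos pi_pos]
    nlinarith [pi_pos]
  have h3 := Real.mul_abs_le_abs_sin h2
  rw [abs_mul, abs_of_pos pi_pos] at h3
  have e2 : 2 / π * (π * |u|) = 2 * |u| := by field_simp
  rw [e2] at h3
  linarith

lemma integral_ee (n : ℤ) : ∫ α in (0 : ℝ)..1, ee (n * α) = if n = 0 then 1 else 0 := by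
  split_ifs with h
  · subst h
    simp [ee_zero]
  · have hc : (Complex.I * (2 * π * n) : ℂ) ≠ 0 := by
      have : (n : ℂ) ≠ 0 := by exact_mod_cast h
      have : (π : ℂ) ≠ 0 := by exact_mod_cast pi_ne_zero
      simp [*]
    have e : ∀ α : ℝ, ee (n * α) = Complex.exp ((Complex.I * (2 * π * n)) * α) := by
      intro α
      unfold ee
      congr 1
      push_cast
      ring
    simp_rw [e]
    rw [integral_exp_mul_complex hc]
    have e1 : Complex.exp ((Complex.I * (2 * π * n)) * ((1 : ℝ) : ℂ)) = 1 := by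
      rw [← e 1, mul_one, ee_int]
    rw [e1]
    simp

/-- The exponential sum of a finite set. -/
noncomputable def hat (T : Finset ℤ) (α : ℝ) : ℂ := ∑ t ∈ T, ee (t * α)

lemma continuous_hat (T : Finset ℤ) : Continuous (hat T) := by
  unfold hat
  refine continuous_finsetSum _ fun t _ => continuous_ee.comp (by fun_prop)

lemma norm_hat_le (T : Finset ℤ) (α : ℝ) : ‖hat T α‖ ≤ T.card := by
  unfold hat
  refine (norm_sum_le _ _).trans (le_of_eq ?_)
  simp [norm_ee]

lemma integral_sum_ee {ι : Type} (s : Finset ι) (f : ι → ℤ) :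
    ∫ α in (0 : ℝ)..1, ∑ p ∈ s, ee (f p * α) = ((s.filter (fun p => f p = 0)).card : ℂ) := by
  rw [intervalIntegral.integral_finsetSum]
  · simp_rw [integral_ee]
    simp
  · intro p _
    exact (continuous_ee.comp (by fun_prop)).intervalIntegrable _ _

lemma parseval (T : Finset ℤ) : ∫ α in (0 : ℝ)..1, ‖hat T α‖ ^ 2 = T.card := by
  have e : ∀ α : ℝ, ((‖hat T α‖ ^ 2 : ℝ) : ℂ) = ∑ p ∈ T ×ˢ T, ee (((p.1 - p.2 : ℤ) : ℝ) * α) := by
    intro α
    push_cast
    rw [← Complex.mul_conj']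
    unfold hat
    rw [map_sum, sum_mul_sum, sum_product]
    refine sum_congr rfl fun a _ => sum_congr rfl fun b _ => ?_
    rw [conj_ee, ← ee_add]
    congr 1
    ring
  have h := integral_sum_ee (T ×ˢ T) (fun p => p.1 - p.2)
  simp_rw [← e] at h
  rw [intervalIntegral.integral_ofReal] at h
  have h2 : ((T ×ˢ T).filter (fun p => p.1 - p.2 = 0)).card = T.card := by
    have : (T ×ˢ T).filter (fun p => p.1 - p.2 = 0) = T.diag := by
      ext ⟨a, b⟩
      simp only [mem_filter, mem_product, mem_diag, sub_eq_zero]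
      constructor
      · rintro ⟨⟨h1, -⟩, h2⟩; exact ⟨h1, h2⟩
      · rintro ⟨h1, h2⟩; exact ⟨⟨h1, h2 ▸ h1⟩, h2⟩
    rw [this, diag_card]
  rw [h2] at h
  exact_mod_cast h

/-- The number of representations as a sum of three elements. -/
def rep3 (T : Finset ℤ) (z : ℤ) : ℕ :=
  ((T ×ˢ T ×ˢ T).filter (fun p => p.1 + p.2.1 + p.2.2 - z = 0)).card

lemma integral_hat_cube (T : Finset ℤ) (z : ℤ) :
    ∫ α in (0 : ℝ)..1, hat T α ^ 3 * ee (-(z * α)) = rep3 T z := by
  unfold rep3
  rw [← integral_sum_ee (T ×ˢ T ×ˢ T) (fun p => p.1 + p.2.1 + p.2.2 - z)]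
  congr 1
  ext α
  have : hat T α ^ 3 = hat T α * (hat T α * hat T α) := by ring
  rw [this]
  unfold hat
  rw [sum_mul_sum, ← sum_product', sum_mul_sum, sum_mul, sum_product]
  refine sum_congr rfl fun a _ => ?_
  rw [sum_mul]
  refine sum_congr rfl fun b _ => ?_
  rw [← ee_add, ← ee_add, ← ee_add]
  congr 1
  push_cast
  ring

lemma exists_rep3_large (T : Finset ℤ) (y : ℤ) (W : ℕ) (hW : 0 < W)
    (hT : ∀ t ∈ T, y ≤ t ∧ t < y + W) : ∃ x : ℤ, T.card ^ 3 ≤ 3 * W * rep3 T x := by
  have hne : (Ico (3 * y) (3 * y + 3 * W)).Nonempty := by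
    refine ⟨3 * y, mem_Ico.mpr ⟨le_rfl, ?_⟩⟩
    have : (0 : ℤ) < W := by exact_mod_cast hW
    linarith
  obtain ⟨x, -, hx⟩ := exists_max_image _ (rep3 T) hne
  refine ⟨x, ?_⟩
  have h1 := card_le_mul_card_image_of_maps_to (s := T ×ˢ T ×ˢ T)
    (t := Ico (3 * y) (3 * y + 3 * W)) (f := fun p => p.1 + p.2.1 + p.2.2) (by
      rintro ⟨a, b, c⟩ hp
      simp only [mem_product] at hp
      obtain ⟨h1, h2⟩ := hT a hp.1
      obtain ⟨h3, h4⟩ := hT b hp.2.1
      obtain ⟨h5, h6⟩ := hT c hp.2.2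
      exact mem_Ico.mpr ⟨by simp only; linarith, by simp only; linarith⟩) (rep3 T x) (by
      intro b hb
      refine le_trans (le_of_eq ?_) (hx b hb)
      unfold rep3
      congr 1
      ext p
      simp [sub_eq_zero])
  have h2 : (Ico (3 * y) (3 * y + 3 * W)).card = 3 * W := by
    rw [Int.card_Ico]
    omega
  rw [h2, card_product, card_product] at h1
  calc T.card ^ 3 = T.card * (T.card * T.card) := by ring
    _ ≤ rep3 T x * (3 * W) := h1
    _ = _ := by ring

/-- Shifts that nearly fix the large Fourier coefficients stay inside the threefold sumset. -/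
theorem fourier_main (T : Finset ℤ) (y : ℤ) (W : ℕ) (hW : 0 < W)
    (hT : ∀ t ∈ T, y ≤ t ∧ t < y + W) : ∃ x : ℤ, ∀ (h : ℤ) (κ : ℝ),
      (∀ α ∈ Set.Icc (0 : ℝ) 1, ‖hat T α‖ * ‖ee (h * α) - 1‖ ≤ κ) → 3 * W * κ < (T.card : ℝ) ^ 2 →
      ∃ t1 ∈ T, ∃ t2 ∈ T, ∃ t3 ∈ T, t1 + t2 + t3 = x + h := by
  obtain ⟨x, hx⟩ := exists_rep3_large T y W hW hT
  refine ⟨x, fun h κ hκ hlt => ?_⟩
  by_contra hno
  have h0 : rep3 T (x + h) = 0 := by
    unfold rep3
    rw [card_eq_zero, filter_eq_empty_iff]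
    rintro ⟨a, b, c⟩ hp he
    simp only [mem_product] at hp
    exact hno ⟨a, hp.1, b, hp.2.1, c, hp.2.2, by simpa [sub_eq_zero] using he⟩
  have c1 : ∀ z : ℤ, Continuous fun α : ℝ => hat T α ^ 3 * ee (-(z * α)) :=
    fun z => ((continuous_hat T).pow 3).mul (continuous_ee.comp (by fun_prop))
  have e1 : ∫ α in (0 : ℝ)..1, (hat T α ^ 3 * ee (-(x * α)) - hat T α ^ 3 * ee (-((x + h : ℤ) * α)))
      = rep3 T x := by
    rw [intervalIntegral.integral_sub ((c1 x).intervalIntegrable _ _)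
      ((c1 (x + h)).intervalIntegrable _ _), integral_hat_cube, integral_hat_cube, h0]
    simp
  have e2 : ‖∫ α in (0 : ℝ)..1,
      (hat T α ^ 3 * ee (-(x * α)) - hat T α ^ 3 * ee (-((x + h : ℤ) * α)))‖
      ≤ ∫ α in (0 : ℝ)..1, κ * ‖hat T α‖ ^ 2 := by
    refine intervalIntegral.norm_integral_le_of_norm_le zero_le_one ?_ ?_
    · refine Filter.Eventually.of_forall fun α hα => ?_
      have e : hat T α ^ 3 * ee (-(x * α)) - hat T α ^ 3 * ee (-((x + h : ℤ) * α))
          = hat T α ^ 2 * ee (-((x + h : ℤ) * α)) * (hat T α * (ee (h * α) - 1)) := by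
        have : ee (-(x * α)) = ee (-((x + h : ℤ) * α)) * ee (h * α) := by
          rw [← ee_add]; congr 1; push_cast; ring
        rw [this]; ring
      rw [e, norm_mul, norm_mul, norm_mul, norm_ee, norm_pow, mul_one, mul_comm]
      exact mul_le_mul_of_nonneg_right (hκ α ⟨hα.1.le, hα.2⟩) (by positivity)
    · exact (continuous_const.mul ((continuous_hat T).norm.pow 2)).intervalIntegrable _ _
  rw [e1, intervalIntegral.integral_const_mul, parseval] at e2
  simp only [Complex.norm_natCast] at e2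
  have hx' : (T.card : ℝ) ^ 3 ≤ 3 * W * rep3 T x := by exact_mod_cast hx
  have hW' : (0 : ℝ) < W := by exact_mod_cast hW
  have hκ0 : 0 ≤ κ := le_trans (by positivity) (hκ 0 ⟨le_rfl, zero_le_one⟩)
  have hc : (0 : ℝ) < T.card := by
    rcases (Nat.cast_nonneg (α := ℝ) T.card).lt_or_eq with h1 | h1
    · exact h1
    · rw [← h1] at hlt
      have : 0 ≤ 3 * W * κ := by positivity
      linarith
  have : 3 * W * (rep3 T x : ℝ) ≤ 3 * W * (κ * T.card) :=
    mul_le_mul_of_nonneg_left e2 (by positivity)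
  nlinarith

/-- If `T + a` and `T + a'` both lie in a slightly larger set, large coefficients see `a - a'` as small. -/
lemma hat_shift (T U : Finset ℤ) (a a' : ℤ) (ha : ∀ t ∈ T, t + a ∈ U) (ha' : ∀ t ∈ T, t + a' ∈ U)
    (α : ℝ) : ‖hat T α‖ * (4 * nrm (((a : ℝ) - a') * α)) ≤ 2 * ((U.card : ℝ) - T.card) := by
  have key : ∀ b : ℤ, (∀ t ∈ T, t + b ∈ U) →
      ‖hat U α - hat T α * ee (b * α)‖ ≤ (U.card : ℝ) - T.card := by
    intro b hb
    have hsub : T.image (· + b) ⊆ U := by
      intro u hu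
      obtain ⟨t, ht, rfl⟩ := mem_image.mp hu
      exact hb t ht
    have e1 : hat T α * ee (b * α) = hat (T.image (· + b)) α := by
      unfold hat
      rw [sum_image (fun x _ y _ h => add_left_injective b h), sum_mul]
      refine sum_congr rfl fun t _ => ?_
      rw [← ee_add]; congr 1; push_cast; ring
    have e2 : hat U α - hat (T.image (· + b)) α = hat (U \ T.image (· + b)) α := by
      unfold hat
      rw [← sum_sdiff hsub]; ring
    rw [e1, e2]
    refine (norm_hat_le _ _).trans (le_of_eq ?_)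
    have := card_sdiff_add_card_eq_card hsub
    rw [card_image_of_injective _ (add_left_injective b)] at this
    have : (((U \ T.image (· + b)).card : ℝ)) + T.card = U.card := by exact_mod_cast this
    linarith
  have h1 := key a ha
  have h2 := key a' ha'
  have e : hat T α * (ee (((a : ℝ) - a') * α) - 1) * ee (a' * α)
      = (hat U α - hat T α * ee (a' * α)) - (hat U α - hat T α * ee (a * α)) := by
    have : ee (a * α) = ee (((a : ℝ) - a') * α) * ee (a' * α) := by
      rw [← ee_add]; congr 1; ring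
    rw [this]; ring
  have h3 := norm_sub_le (hat U α - hat T α * ee (a' * α)) (hat U α - hat T α * ee (a * α))
  rw [← e, norm_mul, norm_mul, norm_ee, mul_one] at h3
  have h4 := mul_le_mul_of_nonneg_left (le_norm_ee_sub_one (((a : ℝ) - a') * α))
    (norm_nonneg (hat T α))
  linarith

end Pool.Agent.Lib.MP_137890_nt
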