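import Mathlib
import Pool.Agent.Lib.MP_137890_nt.Basic

set_option autoImplicit false

open Pointwise Finset

namespace Pool.Agent.Lib.MP_137890_nt

/-- `T` is a finite subset of `S` inside the window `[x, x + N)`. -/
def Win (S : Set ℤ) (x : ℤ) (N : ℕ) (T : Finset ℤ) : Prop :=
  ∀ t ∈ T, t ∈ S ∧ x ≤ t ∧ t < x + N

/-- Upper Banach density at least `σ`. -/
def Thick (σ : ℝ) (S : Set ℤ) : Prop :=
  ∀ N : ℕ, ∃ (x : ℤ) (T : Finset ℤ), Win S x N T ∧ σ * N ≤ T.card

lemma Thick.mono {σ σ' : ℝ} {S S' : Set ℤ} (h : Thick σ S) (hσ : σ' ≤ σ) (c : ℤ)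
    (hS : ∀ s ∈ S, s + c ∈ S') : Thick σ' S' := by
  intro N
  obtain ⟨x, T, hT, hc⟩ := h N
  refine ⟨x + c, T.image (· + c), ?_, ?_⟩
  · intro t ht
    obtain ⟨u, hu, rfl⟩ := mem_image.mp ht
    obtain ⟨h1, h2, h3⟩ := hT u hu
    exact ⟨hS u h1, by linarith, by linarith⟩
  · rw [card_image_of_injective _ (add_left_injective c)]
    exact (mul_le_mul_of_nonneg_right hσ (Nat.cast_nonneg N)).trans hc

lemma win_mul_le {S : Set ℤ} {M : ℕ} {c : ℝ} (h : ∀ x T, Win S x M T → (T.card : ℝ) ≤ c) :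
    ∀ (t : ℕ) (x : ℤ) (T : Finset ℤ), Win S x (t * M) T → (T.card : ℝ) ≤ t * c := by
  intro t
  induction t with
  | zero =>
    intro x T hT
    have : T = ∅ := by
      refine eq_empty_of_forall_notMem fun u hu => ?_
      obtain ⟨-, h2, h3⟩ := hT u hu
      simp at h3
      linarith
    simp [this]
  | succ t ih =>
    intro x T hT
    have h1 := ih x (T.filter (· < x + (t * M : ℕ))) (by
      intro u hu
      obtain ⟨hu1, hu2⟩ := mem_filter.mp hu
      exact ⟨(hT u hu1).1, (hT u hu1).2.1, hu2⟩)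
    have h2 := h (x + (t * M : ℕ)) (T.filter (fun u => ¬ u < x + (t * M : ℕ))) (by
      intro u hu
      obtain ⟨hu1, hu2⟩ := mem_filter.mp hu
      refine ⟨(hT u hu1).1, not_lt.mp hu2, ?_⟩
      have := (hT u hu1).2.2
      push_cast at this ⊢
      linarith)
    have h3 := card_filter_add_card_filter_not (s := T) (fun u => u < x + (t * M : ℕ))
    have h4 : (T.card : ℝ) = (T.filter (· < x + (t * M : ℕ))).card
        + (T.filter (fun u => ¬ u < x + (t * M : ℕ))).card := by exact_mod_cast h3.symm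
    push_cast
    linarith

lemma Thick.of_approx {σ : ℝ} {S : Set ℤ} (C : ℕ)
    (h : ∀ N : ℕ, ∃ (x : ℤ) (T : Finset ℤ), Win S x (N + C) T ∧ σ * N ≤ T.card) : Thick σ S := by
  by_contra hc
  unfold Thick at hc
  push Not at hc
  obtain ⟨M, hM⟩ := hc
  have hpos : 0 < σ * M := by
    have := hM 0 ∅ (by intro t ht; simp at ht)
    simpa using this
  have hM0 : 0 < M := by
    rcases Nat.eq_zero_or_pos M with h0 | h0
    · subst h0; simp at hpos
    · exact h0
  set c : ℝ := (⌈σ * M⌉₊ : ℝ) - 1 with hcdef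
  have hc1 : c < σ * M := by
    have := Nat.ceil_lt_add_one hpos.le
    linarith
  have hc2 : ∀ x T, Win S x M T → (T.card : ℝ) ≤ c := by
    intro x T hT
    have h1 : T.card < ⌈σ * M⌉₊ := Nat.lt_ceil.mpr (hM x T hT)
    have h2 : ((T.card + 1 : ℕ) : ℝ) ≤ (⌈σ * M⌉₊ : ℝ) := by exact_mod_cast h1
    push_cast at h2
    linarith
  have hc0 : 0 ≤ c := by simpa using hc2 0 ∅ (by intro t ht; simp at ht)
  obtain ⟨t, ht⟩ := exists_nat_gt (C * c / (σ * M - c))
  rw [div_lt_iff₀ (by linarith)] at ht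
  obtain ⟨x, T, hT, hcard⟩ := h (t * M)
  have h3 := win_mul_le hc2 (t + C) x T (by
    intro u hu
    obtain ⟨h1, h2, h3⟩ := hT u hu
    refine ⟨h1, h2, h3.trans_le ?_⟩
    have : t * M + C ≤ (t + C) * M := by nlinarith
    have : ((t * M + C : ℕ) : ℤ) ≤ ((t + C) * M : ℕ) := by exact_mod_cast this
    linarith)
  push_cast at h3 hcard
  nlinarith

/-- The doubling step. -/
lemma Thick.grow {σ : ℝ} {S K B : Set ℤ} (hσ : 0 < σ) (hS : Thick σ S) (hK : Thick (3 * σ) K)
    (hB : ∀ g ∈ K, ∃ b ∈ B, ∃ b' ∈ B, g = b - b') : Thick (3 * σ / 2) (S + B) := by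
  by_cases hc : Thick (3 * σ / 2) S
  · obtain ⟨x, T, hT, hcard⟩ := hK 1
    have : T.Nonempty := by
      rw [← card_pos]
      have : (0 : ℝ) < T.card := by push_cast at hcard; linarith
      exact_mod_cast this
    obtain ⟨g, hg⟩ := this
    obtain ⟨b, hb, -⟩ := hB g (hT g hg).1
    exact hc.mono le_rfl b fun s hs => Set.add_mem_add hs hb
  unfold Thick at hc
  push Not at hc
  obtain ⟨M, hM⟩ := hc
  obtain ⟨z, KM, hKM, hKc⟩ := hK M
  have hpos : 0 < 3 * σ / 2 * M := by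
    have := hM 0 ∅ (by intro t ht; simp at ht)
    simpa using this
  have hKpos : (0 : ℝ) < KM.card := by linarith
  have hKne : KM.Nonempty := by
    rw [← card_pos]; exact_mod_cast hKpos
  set C : ℕ := z.natAbs + M with hC
  have hgC : ∀ g ∈ KM, -(C : ℤ) ≤ g ∧ g ≤ C := by
    intro g hg
    obtain ⟨-, h1, h2⟩ := hKM g hg
    have h3 : (C : ℤ) = |z| + M := by rw [hC]; push_cast; rfl
    have h4 := neg_abs_le z
    have h5 := le_abs_self z
    have h6 : (0 : ℤ) ≤ M := Int.natCast_nonneg M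
    constructor <;> linarith
  refine Thick.of_approx (2 * C) fun N => ?_
  obtain ⟨x, T, hT, hTc⟩ := hS N
  have hsum : ∑ g ∈ KM, ((T.filter (fun t => t - g ∈ T)).card : ℝ)
      ≤ ∑ _g ∈ KM, (T.card : ℝ) / 2 := by
    have e1 : ∑ g ∈ KM, ((T.filter (fun t => t - g ∈ T)).card : ℝ)
        = ∑ t ∈ T, ((KM.filter (fun g => t - g ∈ T)).card : ℝ) := by
      simp only [card_filter, Nat.cast_sum]
      exact sum_comm
    rw [e1]
    have e2 : ∀ t ∈ T, ((KM.filter (fun g => t - g ∈ T)).card : ℝ) ≤ (KM.card : ℝ) / 2 := by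
      intro t _
      have := hM (t - z - M + 1) ((KM.filter (fun g => t - g ∈ T)).image (fun g => t - g)) (by
        intro u hu
        obtain ⟨g, hg, rfl⟩ := mem_image.mp hu
        obtain ⟨hg1, hg2⟩ := mem_filter.mp hg
        obtain ⟨-, h1, h2⟩ := hKM g hg1
        exact ⟨(hT _ hg2).1, by linarith, by linarith⟩)
      rw [card_image_of_injective _ (sub_right_injective)] at this
      linarith
    refine (sum_le_sum e2).trans (le_of_eq ?_)
    simp only [sum_const, nsmul_eq_mul]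
    ring
  obtain ⟨g, hg, hgc⟩ := exists_le_of_sum_le hKne hsum
  obtain ⟨b, hb, b', hb', hgb⟩ := hB g (hKM g hg).1
  obtain ⟨hg1, hg2⟩ := hgC g hg
  refine ⟨x + b' - C, (T ∪ T.image (· + g)).image (· + b'), ?_, ?_⟩
  · intro u hu
    obtain ⟨v, hv, rfl⟩ := mem_image.mp hu
    have h6 : (0 : ℤ) ≤ C := Int.natCast_nonneg C
    rcases mem_union.mp hv with hv | hv
    · obtain ⟨h1, h2, h3⟩ := hT v hv
      refine ⟨Set.add_mem_add h1 hb', by linarith, ?_⟩
      push_cast; linarith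
    · obtain ⟨w, hw, rfl⟩ := mem_image.mp hv
      obtain ⟨h1, h2, h3⟩ := hT w hw
      refine ⟨?_, by linarith, ?_⟩
      · have : w + g + b' = w + b := by rw [hgb]; ring
        rw [this]; exact Set.add_mem_add h1 hb
      · push_cast; linarith
  · rw [card_image_of_injective _ (add_left_injective b')]
    have e1 := card_union_add_card_inter T (T.image (· + g))
    rw [card_image_of_injective _ (add_left_injective g)] at e1
    have e2 : T ∩ T.image (· + g) = T.filter (fun t => t - g ∈ T) := by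
      ext u
      simp only [mem_inter, mem_image, mem_filter]
      constructor
      · rintro ⟨h1, w, hw, rfl⟩
        exact ⟨h1, by simpa using hw⟩
      · rintro ⟨h1, h2⟩
        exact ⟨h1, u - g, h2, by ring⟩
    rw [e2] at e1
    have e3 : ((T ∪ T.image (· + g)).card : ℝ) + (T.filter (fun t => t - g ∈ T)).card
        = T.card + T.card := by exact_mod_cast e1
    linarith

/-- Differences of two sums of `n` elements of `A`. -/
def Kd (A : Set ℤ) (n : ℕ) : Set ℤ := {g | ∃ u ∈ n • A, ∃ v ∈ n • A, g = u - v}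

lemma Kd_add {A : Set ℤ} {m n : ℕ} {g g' : ℤ} (h : g ∈ Kd A m) (h' : g' ∈ Kd A n) :
    g + g' ∈ Kd A (m + n) := by
  obtain ⟨u, hu, v, hv, rfl⟩ := h
  obtain ⟨u', hu', v', hv', rfl⟩ := h'
  exact ⟨u + u', add_mem_add_nsmul hu hu', v + v', add_mem_add_nsmul hv hv', by ring⟩

lemma Kd_neg {A : Set ℤ} {m : ℕ} {g : ℤ} (h : g ∈ Kd A m) : -g ∈ Kd A m := by
  obtain ⟨u, hu, v, hv, rfl⟩ := h
  exact ⟨v, hv, u, hu, by ring⟩

lemma Kd_mono {A : Set ℤ} {a0 : ℤ} (h0 : a0 ∈ A) {m n : ℕ} (hmn : m ≤ n) {g : ℤ}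
    (h : g ∈ Kd A m) : g ∈ Kd A n := by
  obtain ⟨u, hu, v, hv, rfl⟩ := h
  exact ⟨_, shift_mem_nsmul h0 hmn hu, _, shift_mem_nsmul h0 hmn hv, by ring⟩

lemma Kd_succ {A : Set ℤ} {m : ℕ} {g : ℤ} (h : g ∈ Kd A (m + 1)) :
    ∃ g' ∈ Kd A m, ∃ d ∈ Kd A 1, g = g' + d := by
  obtain ⟨u, hu, v, hv, rfl⟩ := h
  obtain ⟨u', hu', a, ha, rfl⟩ := mem_succ_nsmul.mp hu
  obtain ⟨v', hv', a', ha', rfl⟩ := mem_succ_nsmul.mp hv
  exact ⟨u' - v', ⟨u', hu', v', hv', rfl⟩, a - a', ⟨a, by simpa using ha, a', by simpa using ha', rfl⟩,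
    by ring⟩

lemma Setup.exists_shell {A : Set ℤ} {r : ℕ} {a0 N0 : ℤ} (S : Setup A r a0 N0) {m : ℕ}
    (h : ∃ g, g ∉ Kd A m) : ∃ x ∈ Kd A (m + 1), x ∉ Kd A m := by
  by_contra hc
  push Not at hc
  have h1 : ∀ n, ∀ x ∈ Kd A (m + n), x ∈ Kd A m := by
    intro n
    induction n with
    | zero => intro x hx; exact hx
    | succ n ih =>
      intro x hx
      obtain ⟨g', hg', d, hd, rfl⟩ := Kd_succ (m := m + n) hx
      exact hc _ (Kd_add (ih g' hg') hd)
  obtain ⟨k, u, hu, v, hv, huv⟩ := S.gen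
  have h2 : (1 : ℤ) ∈ Kd A k := ⟨u, hu, v, hv, huv.symm⟩
  have h3 : ∀ n : ℕ, (n : ℤ) ∈ Kd A (n * k) := by
    intro n
    induction n with
    | zero => exact ⟨0, by simp, 0, by simp, by simp⟩
    | succ n ih =>
      have := Kd_add ih h2
      rw [Nat.succ_mul]
      exact_mod_cast this
  obtain ⟨g, hg⟩ := h
  apply hg
  apply h1 (g.natAbs * k)
  refine Kd_mono S.mem (Nat.le_add_left _ _) ?_
  rcases Int.natAbs_eq g with e | e
  · have := h3 g.natAbs
    rwa [← e] at this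
  · have := Kd_neg (h3 g.natAbs)
    rwa [← e] at this

lemma Setup.window {A : Set ℤ} {r : ℕ} {a0 N0 : ℤ} (S : Setup A r a0 N0) (y : ℤ) (hy : N0 ≤ y)
    (N : ℕ) : ∃ T : Finset ℤ, Win (r • A) y (N + r * a0.toNat) T ∧ N ≤ (r + 1) * T.card := by
  classical
  have h0 : (a0.toNat : ℤ) = a0 := Int.toNat_of_nonneg (S.nonneg a0 S.mem)
  have ha0 := S.nonneg a0 S.mem
  set T := (Ico y (y + (N + r * a0.toNat : ℕ))).filter (· ∈ r • A) with hT
  refine ⟨T, ?_, ?_⟩
  · intro t ht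
    obtain ⟨h1, h2⟩ := mem_filter.mp ht
    obtain ⟨h3, h4⟩ := mem_Ico.mp h1
    exact ⟨h2, h3, h4⟩
  · have hsub : Ico y (y + N) ⊆ (range (r + 1)).biUnion (fun i => T.image (· - i * a0)) := by
      intro n hn
      obtain ⟨h1, h2⟩ := mem_Ico.mp hn
      obtain ⟨i, hi, hmem⟩ := S.exists_near n (hy.trans h1)
      refine mem_biUnion.mpr ⟨i, mem_range.mpr (by omega), mem_image.mpr ⟨n + i * a0, ?_, by ring⟩⟩
      refine mem_filter.mpr ⟨mem_Ico.mpr ⟨?_, ?_⟩, hmem⟩
      · have : (0 : ℤ) ≤ i * a0 := mul_nonneg (Int.natCast_nonneg i) ha0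
        linarith
      · have hi' : (i : ℤ) ≤ r := by exact_mod_cast hi
        have : (i : ℤ) * a0 ≤ r * a0 := mul_le_mul_of_nonneg_right hi' ha0
        push_cast
        rw [h0]
        linarith
    have h1 := card_le_card hsub
    have h2 : ((range (r + 1)).biUnion (fun i => T.image (· - i * a0))).card
        ≤ ∑ _i ∈ range (r + 1), T.card :=
      card_biUnion_le.trans (sum_le_sum fun i _ => card_image_le)
    simp at h1 h2
    omega

lemma Setup.thick_base {A : Set ℤ} {r : ℕ} {a0 N0 : ℤ} (S : Setup A r a0 N0) :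
    Thick (1 / ((r : ℝ) + 1)) (r • A) := by
  refine Thick.of_approx (r * a0.toNat) fun N => ?_
  obtain ⟨T, hT, hc⟩ := S.window N0 le_rfl N
  refine ⟨N0, T, hT, ?_⟩
  have : (N : ℝ) ≤ (r + 1) * T.card := by exact_mod_cast hc
  rw [one_div, inv_mul_le_iff₀ (by positivity)]
  exact this

lemma Setup.shells {A : Set ℤ} {r : ℕ} {a0 N0 : ℤ} (S : Setup A r a0 N0) (U : ℕ) :
    (∀ g, g ∈ Kd A ((2 * r + 1) * U)) ∨ ∃ y0 : ℤ, ∀ y, y0 ≤ y → ∀ N : ℕ, ∃ T : Finset ℤ,
      Win (Kd A ((2 * r + 1) * U)) y (N + r * a0.toNat) T ∧ U * N ≤ (r + 1) * T.card := by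
  induction U with
  | zero =>
    right
    exact ⟨0, fun y _ N => ⟨∅, by intro t ht; simp at ht, by simp⟩⟩
  | succ U ih =>
    by_cases hall : ∀ g, g ∈ Kd A ((2 * r + 1) * U + r)
    · left
      intro g
      exact Kd_mono S.mem (by rw [mul_add]; omega) (hall g)
    push Not at hall
    obtain ⟨x, hx1, hx2⟩ := S.exists_shell hall
    rcases ih with ih | ⟨y0, ih⟩
    · exact absurd (Kd_mono S.mem (Nat.le_add_right _ _) (ih x)) hx2
    right
    refine ⟨max y0 (N0 + (x - r * a0)), fun y hy N => ?_⟩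
    obtain ⟨T1, hT1, hc1⟩ := ih y ((le_max_left _ _).trans hy) N
    obtain ⟨T2, hT2, hc2⟩ := S.window (y - (x - r * a0)) (by linarith [(le_max_right _ _).trans hy]) N
    have hK : ∀ b ∈ r • A, b - r * a0 ∈ Kd A r :=
      fun b hb => ⟨b, hb, r * a0, mul_mem_nsmul S.mem r, rfl⟩
    have hdisj : Disjoint T1 (T2.image (· + (x - r * a0))) := by
      rw [disjoint_left]
      intro g hg1 hg2
      obtain ⟨b, hb, rfl⟩ := mem_image.mp hg2
      apply hx2
      have := Kd_add (hT1 _ hg1).1 (Kd_neg (hK b (hT2 b hb).1))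
      convert this using 1
      ring
    refine ⟨T1 ∪ T2.image (· + (x - r * a0)), ?_, ?_⟩
    · intro g hg
      rcases mem_union.mp hg with hg | hg
      · obtain ⟨h1, h2, h3⟩ := hT1 g hg
        exact ⟨Kd_mono S.mem (by rw [mul_add]; omega) h1, h2, h3⟩
      · obtain ⟨b, hb, rfl⟩ := mem_image.mp hg
        obtain ⟨h1, h2, h3⟩ := hT2 b hb
        refine ⟨?_, by linarith, by linarith⟩
        have := Kd_add hx1 (hK b h1)
        have e : (2 * r + 1) * U + r + 1 + r = (2 * r + 1) * (U + 1) := by ring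
        rw [e] at this
        convert this using 1
        ring
    · rw [card_union_of_disjoint hdisj, card_image_of_injective _ (add_left_injective _)]
      nlinarith

lemma Setup.thick_Kd {A : Set ℤ} {r : ℕ} {a0 N0 : ℤ} (S : Setup A r a0 N0) {U : ℕ}
    (hU : U ≤ r + 1) : Thick (U / ((r : ℝ) + 1)) (Kd A ((2 * r + 1) * U)) := by
  have hq : (0 : ℝ) < (r : ℝ) + 1 := by positivity
  rcases S.shells U with h | ⟨y0, h⟩
  · intro N
    refine ⟨0, Ico 0 (N : ℤ), ?_, ?_⟩
    · intro t ht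
      obtain ⟨h1, h2⟩ := mem_Ico.mp ht
      exact ⟨h t, h1, by simpa using h2⟩
    · have : (U : ℝ) / ((r : ℝ) + 1) ≤ 1 := by
        rw [div_le_one hq]; exact_mod_cast hU
      simp only [Int.card_Ico, sub_zero, Int.toNat_natCast]
      exact mul_le_of_le_one_left (Nat.cast_nonneg N) this
  · refine Thick.of_approx (r * a0.toNat) fun N => ?_
    obtain ⟨T, hT, hc⟩ := h y0 le_rfl N
    refine ⟨y0, T, hT, ?_⟩
    have : (U : ℝ) * N ≤ (r + 1) * T.card := by exact_mod_cast hc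
    rw [div_mul_eq_mul_div, div_le_iff₀ hq]
    linarith

/-- Linear growth of the upper Banach density of `j A`. -/
theorem Setup.thick_growth {A : Set ℤ} {r : ℕ} {a0 N0 : ℤ} (S : Setup A r a0 N0) :
    ∀ U : ℕ, 1 ≤ U → U ≤ r + 1 →
      Thick (U / (3 * ((r : ℝ) + 1))) ((10 * (r + 1) * U) • A) := by
  have hq : (0 : ℝ) < (r : ℝ) + 1 := by positivity
  intro U
  induction U using Nat.strong_induction_on with
  | _ U ih =>
    intro h1 h2
    by_cases h3 : U ≤ 3
    · have hle : r ≤ 10 * (r + 1) * U := by nlinarith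
      refine S.thick_base.mono ?_ (((10 * (r + 1) * U - r : ℕ) : ℤ) * a0)
        fun s hs => shift_mem_nsmul S.mem hle hs
      have : (U : ℝ) ≤ 3 := by exact_mod_cast h3
      rw [div_le_div_iff₀ (by positivity) hq]
      nlinarith
    · push Not at h3
      set V := (2 * U + 2) / 3 with hV
      have hV1 : 1 ≤ V := by omega
      have hV2 : V < U := by omega
      have hV3 : 2 * U ≤ 3 * V := by omega
      have hV4 : 6 * V ≤ 5 * U := by omega
      have hVpos : (0 : ℝ) < V := by exact_mod_cast hV1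
      have e1 := ih V hV2 hV1 (by omega)
      have e2 := S.thick_Kd (U := V) (by omega)
      have e3 : (V : ℝ) / ((r : ℝ) + 1) = 3 * (V / (3 * ((r : ℝ) + 1))) := by field_simp
      rw [e3] at e2
      have e4 := Thick.grow (B := ((2 * r + 1) * V) • A) (by positivity) e1 e2 (fun g hg => hg)
      rw [← add_nsmul] at e4
      have hle : 10 * (r + 1) * V + (2 * r + 1) * V ≤ 10 * (r + 1) * U := by nlinarith
      refine e4.mono ?_ _ fun s hs => shift_mem_nsmul S.mem hle hs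
      have : (2 : ℝ) * U ≤ 3 * V := by exact_mod_cast hV3
      rw [div_le_iff₀ (by positivity)]
      have e5 : 3 * ((V : ℝ) / (3 * ((r : ℝ) + 1))) / 2 * (3 * ((r : ℝ) + 1)) = 3 * V / 2 := by
        field_simp
      rw [e5]
      linarith

end Pool.Agent.Lib.MP_137890_nt
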