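import Mathlib
import Pool.Agent.Lib.MP_137890_nt.Basic
import Pool.Agent.Lib.MP_137890_nt.Triangle

set_option autoImplicit false

open Pointwise

namespace Pool.Agent.Lib.MP_137890_nt

/-- All differences of elements of `A`, multiplied by `α`, are within `ε` of an integer. -/
def Wd (A : Set ℤ) (α ε : ℝ) : Prop :=
  ∀ a ∈ A, ∀ a' ∈ A, nrm (((a : ℝ) - a') * α) ≤ ε

/-- The signed remainder of `(a - a0) α`. -/
noncomputable def fl (a0 : ℤ) (α : ℝ) (a : ℤ) : ℝ :=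
  ((a : ℝ) - a0) * α - round (((a : ℝ) - a0) * α)

lemma Wd.mono {A : Set ℤ} {α ε ε' : ℝ} (h : Wd A α ε) (he : ε ≤ ε') : Wd A α ε' :=
  fun a ha a' ha' => (h a ha a' ha').trans he

lemma Wd.fl_abs {A : Set ℤ} {α ε : ℝ} (h : Wd A α ε) {a0 a : ℤ} (h0 : a0 ∈ A) (ha : a ∈ A) :
    |fl a0 α a| ≤ ε := h a ha a0 h0

lemma Wd.fl_sub {A : Set ℤ} {α ε : ℝ} (h : Wd A α ε) (he : ε < 1 / 4) {a0 a a' : ℤ} (h0 : a0 ∈ A)
    (ha : a ∈ A) (ha' : a' ∈ A) : nrm (((a : ℝ) - a') * α) = |fl a0 α a - fl a0 α a'| := by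
  have h1 := h.fl_abs h0 ha
  have h2 := h.fl_abs h0 ha'
  have h3 : |fl a0 α a - fl a0 α a'| < 1 / 2 := by
    have := abs_sub (fl a0 α a) (fl a0 α a')
    linarith
  rw [← nrm_eq_abs h3]
  refine nrm_congr (round (((a : ℝ) - a0) * α) - round (((a' : ℝ) - a0) * α)) ?_
  unfold fl
  push_cast
  ring

lemma Wd.diff {A : Set ℤ} {α ε : ℝ} (h : Wd A α ε) (j : ℕ) {u v : ℤ} (hu : u ∈ j • A)
    (hv : v ∈ j • A) : nrm (((u : ℝ) - v) * α) ≤ j * ε := by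
  have := diff_induction (A := A) (fun j d => nrm ((d : ℝ) * α) ≤ j * ε)
    (by simpa using (nrm_int 0).le) ?_ j u hu v hv
  · simpa using this
  · intro j d hd a ha a' ha'
    have h1 := nrm_add_le ((d : ℝ) * α) (((a : ℝ) - a') * α)
    have h2 := h a ha a' ha'
    have e : ((d + (a - a') : ℤ) : ℝ) * α = d * α + ((a : ℝ) - a') * α := by push_cast; ring
    show nrm (((d + (a - a') : ℤ) : ℝ) * α) ≤ ((j + 1 : ℕ) : ℝ) * ε
    rw [e]
    push_cast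
    linarith

lemma Setup.int_of_wd_zero {A : Set ℤ} {r : ℕ} {a0 N0 : ℤ} (S : Setup A r a0 N0) {α : ℝ}
    (h : Wd A α 0) : ∃ m : ℤ, α = m := by
  obtain ⟨k, u, hu, v, hv, huv⟩ := S.gen
  have h1 := h.diff k hu hv
  have e : (u : ℝ) - v = 1 := by exact_mod_cast huv
  rw [e, one_mul, mul_zero] at h1
  exact int_of_nrm_eq_zero (le_antisymm h1 (nrm_nonneg _))

lemma Setup.exists_fl_lt {A : Set ℤ} {r : ℕ} {a0 N0 : ℤ} (S : Setup A r a0 N0) {α ε : ℝ}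
    (hα : ∀ m : ℤ, α ≠ m) (h : Wd A α ε) (he : ε < 1 / 4) :
    ∃ a ∈ A, ∃ a' ∈ A, fl a0 α a' < fl a0 α a := by
  by_contra hc
  push Not at hc
  have : Wd A α 0 := by
    intro a ha a' ha'
    rw [h.fl_sub he S.mem ha ha', le_antisymm (hc a' ha' a ha) (hc a ha a' ha')]
    simp
  obtain ⟨m, hm⟩ := S.int_of_wd_zero this
  exact hα m hm

/-- A nontrivial character cannot map `A` into an arc shorter than `3 / (r+2)²`. -/
theorem Setup.width_lower {A : Set ℤ} {r : ℕ} {a0 N0 : ℤ} (S : Setup A r a0 N0) (hr : 2 ≤ r)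
    {α ε : ℝ} (hα : ∀ m : ℤ, α ≠ m) (h : Wd A α ε) : 3 ≤ ((r : ℝ) + 2) ^ 2 * ε := by
  by_cases he : 1 / 4 ≤ ε
  · have : (2 : ℝ) ≤ r := by exact_mod_cast hr
    nlinarith
  push Not at he
  obtain ⟨a, ha, a', ha', hlt⟩ := S.exists_fl_lt hα h he
  set s := fl a0 α a - fl a0 α a' with hs
  have hs0 : 0 < s := by linarith
  have hsε : s ≤ ε := by
    have := h a ha a' ha'
    rw [h.fl_sub he S.mem ha ha'] at this
    exact (le_abs_self _).trans this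
  have hε : 0 < ε := hs0.trans_le hsε
  set μ := sInf (fl a0 α '' A) with hμ
  have hbdd : BddBelow (fl a0 α '' A) := by
    refine ⟨-ε, ?_⟩
    rintro _ ⟨b, hb, rfl⟩
    exact (abs_le.mp (h.fl_abs S.mem hb)).1
  have hμ1 : ∀ b ∈ A, μ ≤ fl a0 α b := fun b hb => csInf_le hbdd ⟨b, hb, rfl⟩
  have hμ2 : ∀ b ∈ A, fl a0 α b ≤ μ + ε := by
    intro b hb
    have : fl a0 α b - ε ≤ μ := by
      refine le_csInf ⟨_, ⟨a0, S.mem, rfl⟩⟩ ?_
      rintro _ ⟨c, hc, rfl⟩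
      have := h b hb c hc
      rw [h.fl_sub he S.mem hb hc] at this
      linarith [(abs_le.mp this).2]
    linarith
  set x := a0 * α + μ with hx
  have hsum : ∀ j : ℕ, ∀ n ∈ j • A, ∃ m : ℤ, 0 ≤ n * α - j * x - m ∧ n * α - j * x - m ≤ j * ε := by
    intro j
    induction j with
    | zero =>
      intro n hn
      simp at hn
      subst hn
      exact ⟨0, by simp, by simp⟩
    | succ j ih =>
      intro n hn
      obtain ⟨u, hu, b, hb, rfl⟩ := mem_succ_nsmul.mp hn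
      obtain ⟨m, h1, h2⟩ := ih u hu
      have h3 := hμ1 b hb
      have h4 := hμ2 b hb
      unfold fl at h3 h4
      refine ⟨m + round (((b : ℝ) - a0) * α), ?_, ?_⟩
      · push_cast; rw [hx] at *; nlinarith
      · push_cast; rw [hx] at *; nlinarith
  refine arcs_cover x ε r hε fun y => ?_
  set M : ℕ := ⌈1 / s⌉₊ with hM
  set d : ℤ := a - a' with hd
  set N : ℤ := N0 + |d| * M with hN
  set y' := Int.fract (y - N * α) with hy'
  have hy0 : 0 ≤ y' := Int.fract_nonneg _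
  have hy1 : y' < 1 := Int.fract_lt_one _
  set i : ℕ := ⌊y' / s⌋₊ with hi
  have hi1 : (i : ℝ) ≤ y' / s := Nat.floor_le (div_nonneg hy0 hs0.le)
  have hi2 : y' / s < i + 1 := Nat.lt_floor_add_one _
  have hiM : i ≤ M := by
    have : (i : ℝ) ≤ M := by
      refine hi1.trans (le_trans ?_ (Nat.le_ceil _))
      exact div_le_div_of_nonneg_right hy1.le hs0.le
    exact_mod_cast this
  have hn : N0 ≤ N + i * d := by
    have h1 : (i : ℤ) ≤ M := by exact_mod_cast hiM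
    have h2 : -|d| ≤ d := neg_abs_le d
    have h3 : 0 ≤ |d| := abs_nonneg d
    have h4 : (0 : ℤ) ≤ i := Int.natCast_nonneg i
    rw [hN]
    nlinarith
  obtain ⟨j, hj, hmem⟩ := S.cov _ hn
  obtain ⟨m, h1, h2⟩ := hsum j _ hmem
  rw [le_div_iff₀ hs0] at hi1
  rw [div_lt_iff₀ hs0] at hi2
  have hdα : (d : ℝ) * α = s + (round (((a : ℝ) - a0) * α) - round (((a' : ℝ) - a0) * α)) := by
    rw [hs, hd]; unfold fl; push_cast; ring
  have hfr : y' = y - N * α - ⌊y - N * α⌋ := rfl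
  refine ⟨j, hj, m + ⌊y - N * α⌋ - i * (round (((a : ℝ) - a0) * α) - round (((a' : ℝ) - a0) * α)),
    ?_, ?_⟩
  · push_cast at h1 h2 ⊢
    have e : ((N : ℝ) + i * d) * α = N * α + i * (d * α) := by ring
    rw [e, hdα] at h1 h2
    nlinarith
  · push_cast at h1 h2 ⊢
    have e : ((N : ℝ) + i * d) * α = N * α + i * (d * α) := by ring
    rw [e, hdα] at h1 h2
    nlinarith

lemma eq_of_nrm_lt {m : ℕ} (s t : Fin m) (h : nrm (((s : ℕ) : ℝ) / m - ((t : ℕ) : ℝ) / m) < 1 / m) :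
    s = t := by
  have hm : 0 < m := Fin.pos s
  have hm' : (0 : ℝ) < m := by exact_mod_cast hm
  unfold nrm at h
  set k := round (((s : ℕ) : ℝ) / m - ((t : ℕ) : ℝ) / m) with hk
  have e : ((s : ℕ) : ℝ) / m - ((t : ℕ) : ℝ) / m - k = (((s : ℕ) : ℝ) - (t : ℕ) - k * m) / m := by
    field_simp
  rw [e, abs_div, abs_of_pos hm', div_lt_div_iff_of_pos_right hm'] at h
  have h' : |((s : ℕ) : ℤ) - (t : ℕ) - k * m| < 1 := by exact_mod_cast h
  have h2 : ((s : ℕ) : ℤ) - (t : ℕ) - k * m = 0 := Int.abs_lt_one_iff.mp h'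
  have hs := s.2
  have ht := t.2
  have hk0 : k = 0 := by
    by_contra hne
    rcases lt_or_gt_of_ne hne with hlt | hgt
    · have : k * m ≤ -(m : ℤ) := by nlinarith
      omega
    · have : (m : ℤ) ≤ k * m := by nlinarith
      omega
  rw [hk0] at h2
  ext
  omega

/-- Two narrow characters have proportional lifts. -/
lemma Setup.dependent {A : Set ℤ} {r : ℕ} {a0 N0 : ℤ} (S : Setup A r a0 N0) {m : ℕ}
    (hm : r + 1 < m * m) {ε ψ χ : ℝ} (hε : ((r : ℝ) + 4) * ε < 1 / m) (hψ : Wd A ψ ε)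
    (hχ : Wd A χ ε) {a a' : ℤ} (ha : a ∈ A) (ha' : a' ∈ A) :
    fl a0 ψ a * fl a0 χ a' = fl a0 ψ a' * fl a0 χ a := by
  by_contra hne
  set p1 := fl a0 ψ a with hp1
  set p2 := fl a0 ψ a' with hp2
  set q1 := fl a0 χ a with hq1
  set q2 := fl a0 χ a' with hq2
  have hD : p1 * q2 - p2 * q1 ≠ 0 := sub_ne_zero.mpr hne
  have bp1 : |p1| ≤ ε := hψ.fl_abs S.mem ha
  have bp2 : |p2| ≤ ε := hψ.fl_abs S.mem ha'
  have bq1 : |q1| ≤ ε := hχ.fl_abs S.mem ha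
  have bq2 : |q2| ≤ ε := hχ.fl_abs S.mem ha'
  have hε0 : 0 ≤ ε := (abs_nonneg _).trans bp1
  have small : ∀ c1 c2 u1 u2 : ℝ, |u1| ≤ ε → |u2| ≤ ε →
      |(⌊c1⌋ : ℝ) * u1 + ⌊c2⌋ * u2 - (c1 * u1 + c2 * u2)| ≤ 2 * ε := by
    intro c1 c2 u1 u2 h1 h2
    have e : (⌊c1⌋ : ℝ) * u1 + ⌊c2⌋ * u2 - (c1 * u1 + c2 * u2)
        = -(Int.fract c1 * u1 + Int.fract c2 * u2) := by
      unfold Int.fract; ring
    rw [e, abs_neg]
    refine (abs_add_le _ _).trans ?_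
    rw [abs_mul, abs_mul, abs_of_nonneg (Int.fract_nonneg c1), abs_of_nonneg (Int.fract_nonneg c2)]
    have f1 := Int.fract_nonneg c1
    have f2 := Int.fract_nonneg c2
    have f3 := (Int.fract_lt_one c1).le
    have f4 := (Int.fract_lt_one c2).le
    have := abs_nonneg u1
    have := abs_nonneg u2
    nlinarith
  have approx : ∀ X Y : ℝ, ∃ n : ℤ, nrm (n * ψ - X) ≤ 2 * ε ∧ nrm (n * χ - Y) ≤ 2 * ε := by
    intro X Y
    set c1 := (X * q2 - Y * p2) / (p1 * q2 - p2 * q1) with hc1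
    set c2 := (Y * p1 - X * q1) / (p1 * q2 - p2 * q1) with hc2
    have eX : X = c1 * p1 + c2 * p2 := by
      rw [hc1, hc2, div_mul_eq_mul_div, div_mul_eq_mul_div, ← add_div, eq_div_iff hD]; ring
    have eY : Y = c1 * q1 + c2 * q2 := by
      rw [hc1, hc2, div_mul_eq_mul_div, div_mul_eq_mul_div, ← add_div, eq_div_iff hD]; ring
    refine ⟨⌊c1⌋ * (a - a0) + ⌊c2⌋ * (a' - a0), ?_, ?_⟩
    · refine nrm_le_iff.mpr ⟨⌊c1⌋ * round (((a : ℝ) - a0) * ψ) + ⌊c2⌋ * round (((a' : ℝ) - a0) * ψ),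
        ?_⟩
      have := small c1 c2 p1 p2 bp1 bp2
      rw [← eX] at this
      convert this using 2
      rw [hp1, hp2]; unfold fl; push_cast; ring
    · refine nrm_le_iff.mpr ⟨⌊c1⌋ * round (((a : ℝ) - a0) * χ) + ⌊c2⌋ * round (((a' : ℝ) - a0) * χ),
        ?_⟩
      have := small c1 c2 q1 q2 bq1 bq2
      rw [← eY] at this
      convert this using 2
      rw [hq1, hq2]; unfold fl; push_cast; ring
  choose n hn1 hn2 using
    fun p : Fin m × Fin m => approx (((p.1 : ℕ) : ℝ) / m) (((p.2 : ℕ) : ℝ) / m)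
  obtain ⟨lo, hlo⟩ := (Set.finite_range n).bddBelow
  have hlo' : ∀ p, N0 ≤ n p + (N0 - lo) := fun p => by
    have := hlo ⟨p, rfl⟩
    linarith
  choose j hj hmem using fun p => S.cov _ (hlo' p)
  obtain ⟨p, p', hpp, hjj⟩ := Fintype.exists_ne_map_eq_of_card_lt
    (fun p : Fin m × Fin m => (⟨j p, Nat.lt_succ_of_le (hj p)⟩ : Fin (r + 1))) (by simpa using hm)
  have hjj' : j p = j p' := by simpa using hjj
  have hmem' := hmem p'
  rw [← hjj'] at hmem'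
  have hjr : (j p : ℝ) ≤ r := by exact_mod_cast hj p
  have gen : ∀ (θ X X' : ℝ), Wd A θ ε → nrm (n p * θ - X) ≤ 2 * ε → nrm (n p' * θ - X') ≤ 2 * ε →
      nrm (X - X') < 1 / m := by
    intro θ X X' hθ h1 h2
    have h3 := hθ.diff (j p) (hmem p) hmem'
    push_cast at h3
    have e : X - X' = (((n p : ℝ) + (N0 - lo) - (n p' + (N0 - lo))) * θ - (n p * θ - X))
        + (n p' * θ - X') := by ring
    have h4 := nrm_add_le (((n p : ℝ) + (N0 - lo) - (n p' + (N0 - lo))) * θ - (n p * θ - X))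
      (n p' * θ - X')
    have h5 := nrm_sub_le (((n p : ℝ) + (N0 - lo) - (n p' + (N0 - lo))) * θ) (n p * θ - X)
    rw [← e] at h4
    have h6 : (j p : ℝ) * ε ≤ r * ε := mul_le_mul_of_nonneg_right hjr hε0
    linarith
  apply hpp
  ext1
  · exact eq_of_nrm_lt _ _ (gen ψ _ _ hψ (hn1 p) (hn1 p'))
  · exact eq_of_nrm_lt _ _ (gen χ _ _ hχ (hn2 p) (hn2 p'))

/-- Every narrow character is an integer multiple of a nearly narrowest one. -/
theorem Setup.multiple {A : Set ℤ} {r : ℕ} {a0 N0 : ℤ} (S : Setup A r a0 N0) {m : ℕ}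
    (hm : r + 1 < m * m) {ε ε1 ψ χ : ℝ} (hε : ((r : ℝ) + 4) * ε < 1 / m) (hψ0 : ∀ k : ℤ, ψ ≠ k)
    (hψ1 : Wd A ψ ε1) (h1 : ε1 ≤ ε) (hmin : ∀ φ : ℝ, (∀ k : ℤ, φ ≠ k) → ¬ Wd A φ (ε1 / 2))
    (hχ : Wd A χ ε) :
    ∃ t k : ℤ, χ = t * ψ + k ∧ ∀ a ∈ A, ∀ a' ∈ A, |(t : ℝ)| * nrm (((a : ℝ) - a') * ψ) ≤ ε := by
  have hψ : Wd A ψ ε := hψ1.mono h1
  have hε0 : 0 ≤ ε := (nrm_nonneg _).trans (hψ a0 S.mem a0 S.mem)
  have hε10 : 0 ≤ ε1 := (nrm_nonneg _).trans (hψ1 a0 S.mem a0 S.mem)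
  have hm1 : (1 : ℝ) ≤ m := by
    have : 1 ≤ m := by
      rcases Nat.eq_zero_or_pos m with h | h
      · subst h; omega
      · exact h
    exact_mod_cast this
  have he : ε < 1 / 4 := by
    have h2 : 1 / (m : ℝ) ≤ 1 := by
      rw [div_le_one (by linarith)]; exact hm1
    have : (0 : ℝ) ≤ r := Nat.cast_nonneg r
    nlinarith
  obtain ⟨b, hb, b', hb', hlt⟩ := S.exists_fl_lt hψ0 hψ he
  obtain ⟨a1, ha1, hne⟩ : ∃ a1 ∈ A, fl a0 ψ a1 ≠ 0 := by
    by_cases h : fl a0 ψ b = 0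
    · exact ⟨b', hb', by rw [h] at hlt; exact hlt.ne⟩
    · exact ⟨b, hb, h⟩
  set t : ℝ := fl a0 χ a1 / fl a0 ψ a1 with ht
  have hprop : ∀ a ∈ A, fl a0 χ a = t * fl a0 ψ a := by
    intro a ha
    have := S.dependent hm hε hψ hχ ha1 ha
    rw [ht]
    field_simp
    linarith
  set G : Set (ℤ × ℝ) := {p | ∃ a ∈ A, p = (a - a0, fl a0 ψ a)} with hG
  set L : AddSubgroup (ℤ × ℝ) := AddSubgroup.closure G with hL
  have hGL : ∀ a ∈ A, ((a - a0, fl a0 ψ a) : ℤ × ℝ) ∈ L :=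
    fun a ha => AddSubgroup.subset_closure ⟨a, ha, rfl⟩
  have hLprop : ∀ p ∈ L, (∃ k : ℤ, p.2 = p.1 * ψ + k) ∧ (∃ k : ℤ, t * p.2 = p.1 * χ + k) := by
    intro p hp
    induction hp using AddSubgroup.closure_induction with
    | mem p hp =>
      obtain ⟨a, ha, rfl⟩ := hp
      refine ⟨⟨-round (((a : ℝ) - a0) * ψ), ?_⟩, ⟨-round (((a : ℝ) - a0) * χ), ?_⟩⟩
      · simp only [fl]; push_cast; ring
      · simp only
        rw [← hprop a ha]
        simp only [fl]; push_cast; ring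
    | zero => exact ⟨⟨0, by simp⟩, ⟨0, by simp⟩⟩
    | add p q _ _ hp hq =>
      obtain ⟨⟨k1, e1⟩, ⟨k2, e2⟩⟩ := hp
      obtain ⟨⟨k3, e3⟩, ⟨k4, e4⟩⟩ := hq
      refine ⟨⟨k1 + k3, ?_⟩, ⟨k2 + k4, ?_⟩⟩
      · simp only [Prod.snd_add, Prod.fst_add]; push_cast; linarith
      · simp only [Prod.snd_add, Prod.fst_add]; push_cast; linarith
    | neg p _ hp =>
      obtain ⟨⟨k1, e1⟩, ⟨k2, e2⟩⟩ := hp
      refine ⟨⟨-k1, ?_⟩, ⟨-k2, ?_⟩⟩
      · simp only [Prod.snd_neg, Prod.fst_neg]; push_cast; linarith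
      · simp only [Prod.snd_neg, Prod.fst_neg]; push_cast; linarith
  obtain ⟨s1, hs1⟩ : ∃ s1 : ℝ, ((1, s1) : ℤ × ℝ) ∈ L := by
    obtain ⟨k, u, hu, v, hv, huv⟩ := S.gen
    have := diff_induction (A := A) (fun _ d => ∃ s : ℝ, ((d, s) : ℤ × ℝ) ∈ L)
      ⟨0, L.zero_mem⟩ ?_ k u hu v hv
    · rwa [huv] at this
    · rintro _ d ⟨s, hs⟩ a ha a' ha'
      refine ⟨s + (fl a0 ψ a - fl a0 ψ a'), ?_⟩
      have := L.add_mem hs (L.sub_mem (hGL a ha) (hGL a' ha'))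
      convert this using 1
      ext
      · simp
      · simp
  set H : AddSubgroup ℤ :=
    L.comap ((AddMonoidHom.inr ℤ ℝ).comp (Int.castAddHom ℝ)) with hH
  have hHmem : ∀ z : ℤ, z ∈ H ↔ ((0, (z : ℝ)) : ℤ × ℝ) ∈ L := fun z => Iff.rfl
  obtain ⟨⟨k1, hk1⟩, ⟨k2, hk2⟩⟩ := hLprop _ hs1
  simp only [Int.cast_one, one_mul] at hk1 hk2
  have hz : ∀ a ∈ A, ∃ z ∈ H, fl a0 ψ a = ((a : ℝ) - a0) * s1 + z := by
    intro a ha
    have h2 : ((0, fl a0 ψ a - ((a : ℝ) - a0) * s1) : ℤ × ℝ) ∈ L := by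
      have := L.sub_mem (hGL a ha) (L.zsmul_mem hs1 (a - a0))
      convert this using 1
      ext
      · simp
      · simp
    obtain ⟨⟨z, hz⟩, -⟩ := hLprop _ h2
    simp only [Int.cast_zero, zero_mul, zero_add] at hz
    refine ⟨z, (hHmem z).mpr ?_, by linarith⟩
    rw [← hz]; exact h2
  have hone : (1 : ℤ) ∈ H := by
    by_contra hno
    obtain ⟨q, hq, hqH⟩ : ∃ q : ℤ, 2 ≤ q ∧ ∀ z ∈ H, q ∣ z := by
      obtain ⟨g, hg⟩ := Int.subgroup_cyclic H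
      have hmem : ∀ z, z ∈ H ↔ g ∣ z := by
        intro z
        rw [hg, AddSubgroup.mem_closure_singleton]
        constructor
        · rintro ⟨n, rfl⟩; exact ⟨n, by simp [mul_comm]⟩
        · rintro ⟨n, rfl⟩; exact ⟨n, by simp [mul_comm]⟩
      by_cases hg0 : g = 0
      · refine ⟨2, le_rfl, fun z hz => ?_⟩
        have := (hmem z).mp hz
        rw [hg0, zero_dvd_iff] at this
        simp [this]
      · refine ⟨|g|, ?_, fun z hz => (abs_dvd g z).mpr ((hmem z).mp hz)⟩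
        have h1 : 0 < |g| := abs_pos.mpr hg0
        have h2 : |g| ≠ 1 := by
          intro h
          apply hno
          rw [hmem, ← abs_dvd, h]
        omega
    have hq' : (2 : ℝ) ≤ q := by exact_mod_cast hq
    have hq0 : (0 : ℝ) < q := by linarith
    refine hmin (s1 / q) ?_ ?_
    · intro k hk
      apply hψ0 (q * k - k1)
      rw [div_eq_iff hq0.ne'] at hk
      push_cast
      linarith
    · intro a ha a' ha'
      obtain ⟨z, hzH, hz1⟩ := hz a ha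
      obtain ⟨z', hzH', hz1'⟩ := hz a' ha'
      obtain ⟨c, rfl⟩ := hqH z hzH
      obtain ⟨c', rfl⟩ := hqH z' hzH'
      refine nrm_le_iff.mpr ⟨c' - c, ?_⟩
      have e : ((a : ℝ) - a') * (s1 / q) - ((c' - c : ℤ) : ℝ) = (fl a0 ψ a - fl a0 ψ a') / q := by
        rw [hz1, hz1']; push_cast; field_simp; ring
      rw [e, abs_div, abs_of_pos hq0, ← hψ.fl_sub he S.mem ha ha', div_le_iff₀ hq0]
      have := hψ1 a ha a' ha'
      nlinarith
  obtain ⟨-, ⟨t0, ht0⟩⟩ := hLprop _ ((hHmem 1).mp hone)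
  simp only [Int.cast_one, mul_one, Int.cast_zero, zero_mul, zero_add] at ht0
  refine ⟨t0, t0 * k1 - k2, ?_, fun a ha a' ha' => ?_⟩
  · rw [ht0, hk1] at hk2
    push_cast
    linarith
  · have := hχ a ha a' ha'
    rw [hχ.fl_sub he S.mem ha ha', hprop a ha, hprop a' ha', ← mul_sub, abs_mul, ht0] at this
    rw [hψ.fl_sub he S.mem ha ha']
    exact this

end Pool.Agent.Lib.MP_137890_nt
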