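import Mathlib
import Pool.Agent.Lib.MP_137890_nt.Width
import Pool.Agent.Lib.MP_137890_nt.Thick
import Pool.Agent.Lib.MP_137890_nt.Fourier

set_option autoImplicit false

open Pointwise Finset

namespace Pool.Agent.Lib.MP_137890_nt

lemma exists_finite_test {A : Set ℤ} {a0 : ℤ} (h0 : a0 ∈ A) {ε ψ C ρ : ℝ} (hρ : 0 < ρ)
    (hstr : ∀ χ : ℝ, Wd A χ ε → ∃ t k : ℤ, χ = t * ψ + k ∧ |(t : ℝ)| ≤ C) :
    ∃ F : Finset ℤ, F.Nonempty ∧ (∀ a ∈ F, a ∈ A) ∧ ∀ α ∈ Set.Icc (0 : ℝ) 1,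
      (∀ a ∈ F, ∀ a' ∈ F, nrm (((a : ℝ) - a') * α) ≤ ε) →
      ∃ t : ℤ, |(t : ℝ)| ≤ C ∧ nrm (α - t * ψ) < ρ := by
  classical
  set O : Set ℝ := ⋃ t : ℤ, ⋃ _ : |(t : ℝ)| ≤ C, {α | nrm (α - t * ψ) < ρ} with hO
  have hOopen : IsOpen O := by
    refine isOpen_iUnion fun t => isOpen_iUnion fun _ => ?_
    exact isOpen_lt (continuous_nrm.comp (by fun_prop)) continuous_const
  have hK : IsCompact (Set.Icc (0 : ℝ) 1 \ O) := isCompact_Icc.diff hOopen
  set Z : A × A → Set ℝ := fun p => {α | nrm ((((p.1 : ℤ) : ℝ) - (p.2 : ℤ)) * α) ≤ ε} with hZ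
  have hZc : ∀ p, IsClosed (Z p) :=
    fun p => isClosed_le (continuous_nrm.comp (by fun_prop)) continuous_const
  obtain ⟨u, hu⟩ := hK.elim_finite_subfamily_closed Z hZc (by
    rw [← Set.disjoint_iff_inter_eq_empty, Set.disjoint_left]
    rintro α ⟨-, hα⟩ hα2
    apply hα
    obtain ⟨t, k, h1, h2⟩ := hstr α (fun a ha a' ha' => Set.mem_iInter.mp hα2 (⟨a, ha⟩, ⟨a', ha'⟩))
    refine Set.mem_iUnion.mpr ⟨t, Set.mem_iUnion.mpr ⟨h2, ?_⟩⟩
    have : α - t * ψ = k := by linarith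
    show nrm (α - t * ψ) < ρ
    rw [this, nrm_int]; exact hρ)
  refine ⟨insert a0 (u.image (fun p => (p.1 : ℤ)) ∪ u.image (fun p => (p.2 : ℤ))),
    insert_nonempty _ _, ?_, ?_⟩
  · intro a ha
    simp only [mem_insert, mem_union, mem_image] at ha
    rcases ha with rfl | ⟨p, -, rfl⟩ | ⟨p, -, rfl⟩
    · exact h0
    · exact p.1.2
    · exact p.2.2
  · intro α hα hF
    by_contra hno
    rw [← Set.disjoint_iff_inter_eq_empty, Set.disjoint_left] at hu
    refine hu (a := α) ⟨hα, ?_⟩ ?_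
    · intro hmem
      obtain ⟨t, ht⟩ := Set.mem_iUnion.mp hmem
      obtain ⟨h1, h2⟩ := Set.mem_iUnion.mp ht
      exact hno ⟨t, h1, h2⟩
    · refine Set.mem_iInter₂.mpr fun p hp => hF _ ?_ _ ?_
      · exact mem_insert_of_mem (mem_union_left _ (mem_image_of_mem _ hp))
      · exact mem_insert_of_mem (mem_union_right _ (mem_image_of_mem _ hp))

lemma exists_slow_step (c : ℕ → ℝ) (J : ℕ) (hJ : 0 < J) (W : ℝ) (h0 : 0 ≤ c 0) (hW : c J ≤ W) :
    ∃ i < J, c (i + 1) - c i ≤ W / J := by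
  by_contra hc
  push Not at hc
  have hsum : ∑ _i ∈ range J, W / J < ∑ i ∈ range J, (c (i + 1) - c i) :=
    sum_lt_sum_of_nonempty (nonempty_range_iff.mpr hJ.ne') fun i hi => hc i (mem_range.mp hi)
  rw [sum_range_sub, sum_const, card_range, nsmul_eq_mul] at hsum
  have : (J : ℝ) * (W / J) = W := by
    have : (J : ℝ) ≠ 0 := by exact_mod_cast hJ.ne'
    field_simp
  linarith

/-- A threefold sumset contains a long piece of a Bohr set of rank one. -/
theorem bohr_piece {A : Set ℤ} {a0 : ℤ} (h0 : a0 ∈ A) (hnn : ∀ a ∈ A, 0 ≤ a) {τ ε ε' ψ C : ℝ}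
    (hτ : 0 < τ) {j0 J : ℕ} (hJ : 0 < J) (hth : Thick τ (j0 • A)) (hε : 20 / (τ ^ 2 * J) ≤ ε)
    (hstr : ∀ χ : ℝ, Wd A χ ε → ∃ t k : ℤ, χ = t * ψ + k ∧ |(t : ℝ)| ≤ C)
    (hC : C * ε' ≤ τ ^ 2 / 200) (L : ℕ) :
    ∃ i ≤ J, ∃ x : ℤ, ∀ h : ℤ, |h| ≤ L → nrm (h * ψ) ≤ ε' → x + h ∈ (3 * (j0 + i)) • A := by
  classical
  set ρ : ℝ := τ ^ 2 / (200 * (L + 1)) with hρdef
  have hρ : 0 < ρ := by positivity
  obtain ⟨F, hFne, hFA, hF⟩ := exists_finite_test h0 hρ hstr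
  obtain ⟨M, hM⟩ : ∃ M : ℕ, ∀ a ∈ F, a ≤ M := by
    obtain ⟨b, hb⟩ := F.bddAbove
    exact ⟨b.toNat, fun a ha => (hb ha).trans (Int.self_le_toNat b)⟩
  set N : ℕ := J * M + 1 with hN
  set W : ℕ := N + J * M with hWdef
  have hNpos : (0 : ℝ) < N := by rw [hN]; positivity
  have hW2 : (W : ℝ) ≤ 2 * N := by
    have : W ≤ 2 * N := by omega
    exact_mod_cast this
  obtain ⟨y, U0, hU0, hU0c⟩ := hth N
  set U : ℕ → Finset ℤ := fun i => U0 + i • F with hU
  have hUs : ∀ i, U (i + 1) = U i + F := fun i => by simp only [hU, succ_nsmul, add_assoc]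
  have hU0' : U 0 = U0 := by simp [hU]
  have hUmem : ∀ i, ∀ u ∈ U i, u ∈ (j0 + i) • A ∧ y ≤ u ∧ u < y + N + i * M := by
    intro i
    induction i with
    | zero =>
      intro u hu
      rw [hU0'] at hu
      simpa using hU0 u hu
    | succ i ih =>
      intro u hu
      rw [hUs] at hu
      obtain ⟨v, hv, a, ha, rfl⟩ := mem_add.mp hu
      obtain ⟨h1, h2, h3⟩ := ih v hv
      have h4 := hnn a (hFA a ha)
      have h5 := hM a ha
      refine ⟨?_, by linarith, by push_cast; linarith⟩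
      rw [← add_assoc]
      exact mem_succ_nsmul.mpr ⟨v, h1, a, hFA a ha, rfl⟩
  have hUwin : ∀ i ≤ J, ∀ u ∈ U i, y ≤ u ∧ u < y + W := by
    intro i hi u hu
    obtain ⟨-, h2, h3⟩ := hUmem i u hu
    refine ⟨h2, h3.trans_le ?_⟩
    have : (i : ℤ) * M ≤ J * M := by
      have : i * M ≤ J * M := Nat.mul_le_mul_right _ hi
      exact_mod_cast this
    rw [hWdef]; push_cast; linarith
  have hUcard : ∀ i ≤ J, ((U i).card : ℝ) ≤ W := by
    intro i hi
    have : U i ⊆ Ico y (y + W) := fun u hu => mem_Ico.mpr (hUwin i hi u hu)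
    have := card_le_card this
    simp only [Int.card_Ico, add_sub_cancel_left, Int.toNat_natCast] at this
    exact_mod_cast this
  have hUlow : ∀ i, U0.card ≤ (U i).card := by
    intro i
    induction i with
    | zero => rw [hU0']
    | succ i ih => rw [hUs]; exact ih.trans (card_le_card_add_right hFne)
  obtain ⟨i, hi, hstep⟩ := exists_slow_step (fun i => ((U i).card : ℝ)) J hJ W
    (Nat.cast_nonneg _) (hUcard J le_rfl)
  have hJ' : (0 : ℝ) < J := by exact_mod_cast hJ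
  obtain ⟨x, hx⟩ := fourier_main (U i) y W (by omega) (hUwin i hi.le)
  refine ⟨i, hi.le, x, fun h hh hψ => ?_⟩
  have hTlow : τ * N ≤ (U i).card := hU0c.trans (by exact_mod_cast hUlow i)
  obtain ⟨t1, h1, t2, h2, t3, h3, hsum⟩ := hx h (14 / 100 * τ ^ 2 * N) (by
    intro α hα
    by_cases hsmall : ‖hat (U i) α‖ ≤ τ ^ 2 / 20 * N
    · have e1 : ‖ee (h * α) - 1‖ ≤ 2 := by
        have := norm_sub_le (ee (h * α)) 1
        rw [norm_ee, norm_one] at this
        linarith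
      have e2 := mul_le_mul hsmall e1 (norm_nonneg _) (by positivity)
      have : 0 < τ ^ 2 * N := by positivity
      nlinarith
    · push Not at hsmall
      obtain ⟨t, ht1, ht2⟩ := hF α hα (by
        intro a ha a' ha'
        have e1 := hat_shift (U i) (U (i + 1)) a a'
          (fun t ht => by rw [hUs]; exact add_mem_add ht ha)
          (fun t ht => by rw [hUs]; exact add_mem_add ht ha') α
        have e2 : τ ^ 2 / 20 * N * (4 * nrm (((a : ℝ) - a') * α))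
            ≤ ‖hat (U i) α‖ * (4 * nrm (((a : ℝ) - a') * α)) :=
          mul_le_mul_of_nonneg_right hsmall.le (by linarith [nrm_nonneg (((a : ℝ) - a') * α)])
        have e3 : (W : ℝ) / J ≤ 2 * N / J := div_le_div_of_nonneg_right hW2 hJ'.le
        have e4 : τ ^ 2 / 20 * N * (4 * nrm (((a : ℝ) - a') * α)) ≤ 2 * (2 * N / J) := by
          linarith
        refine le_trans ?_ hε
        rw [le_div_iff₀ (by positivity)]
        have e5 : 2 * (2 * (N : ℝ) / J) = 4 * N / J := by ring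
        rw [e5, le_div_iff₀ hJ'] at e4
        have e6 : (N : ℝ) * (nrm (((a : ℝ) - a') * α) * (τ ^ 2 * J)) ≤ N * 20 := by nlinarith
        exact le_of_mul_le_mul_left e6 hNpos)
      have e1 : (h : ℝ) * α = h * (α - t * ψ) + t * (h * ψ) := by ring
      have e2 := nrm_add_le ((h : ℝ) * (α - t * ψ)) (t * (h * ψ))
      rw [← e1] at e2
      have e3 := nrm_int_mul_le h (α - t * ψ)
      have e4 := nrm_int_mul_le t (h * ψ)
      have hh' : |(h : ℝ)| ≤ L := by exact_mod_cast hh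
      have e5 : |(h : ℝ)| * nrm (α - t * ψ) ≤ (L + 1) * ρ :=
        mul_le_mul (by linarith) ht2.le (nrm_nonneg _) (by positivity)
      have e6 : |(t : ℝ)| * nrm (h * ψ) ≤ C * ε' :=
        mul_le_mul ht1 hψ (nrm_nonneg _) ((abs_nonneg _).trans ht1)
      have e7 : ((L : ℝ) + 1) * ρ = τ ^ 2 / 200 := by rw [hρdef]; field_simp
      have e8 : ‖ee (h * α) - 1‖ ≤ 7 * (τ ^ 2 / 100) := by
        have := norm_ee_sub_one_le (h * α)
        linarith
      have e9 : ‖hat (U i) α‖ ≤ 2 * N := (norm_hat_le _ _).trans ((hUcard i hi.le).trans hW2)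
      have e10 := mul_le_mul e9 e8 (norm_nonneg _) (by positivity)
      linarith) (by
    have e1 : (τ * N) ^ 2 ≤ ((U i).card : ℝ) ^ 2 := pow_le_pow_left₀ (by positivity) hTlow 2
    have e2 : 3 * (W : ℝ) * (14 / 100 * τ ^ 2 * N) ≤ 3 * (2 * N) * (14 / 100 * τ ^ 2 * N) :=
      mul_le_mul_of_nonneg_right (by linarith) (by positivity)
    have : 0 < (τ * N) ^ 2 := by positivity
    nlinarith)
  rw [← hsum]
  have := add_mem_add_nsmul (add_mem_add_nsmul (hUmem i t1 h1).1 (hUmem i t2 h2).1) (hUmem i t3 h3).1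
  convert this using 2
  ring

/-- Sweeping the circle with `m` more summands. -/
lemma Setup.sweep {A : Set ℤ} {r : ℕ} {a0 N0 : ℤ} (S : Setup A r a0 N0) {a a' : ℤ} (ha : a ∈ A)
    (ha' : a' ∈ A) {ψ s ε' : ℝ} {k : ℤ} (hs : 0 < s) (hsε : s ≤ ε')
    (hk : ((a : ℝ) - a') * ψ = s + k) {m : ℕ} (hm : 1 ≤ m * s) {j : ℕ} {x : ℤ}
    (hx : ∀ h : ℤ, |h| ≤ ((r * a0.toNat + m * (a - a').natAbs : ℕ) : ℤ) → nrm (h * ψ) ≤ ε' →
      x + h ∈ j • A) :
    ∃ N1 : ℤ, ∀ n, N1 ≤ n → n ∈ (j + r + m) • A := by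
  have h0 : (a0.toNat : ℤ) = a0 := Int.toNat_of_nonneg (S.nonneg a0 S.mem)
  have ha0 := S.nonneg a0 S.mem
  refine ⟨N0 + x + m * a', fun n hn => ?_⟩
  obtain ⟨i0, hi0, hb⟩ := S.exists_near (n - x - m * a') (by linarith)
  set h0' : ℤ := -(i0 * a0) with hh0
  set u := Int.fract ((h0' : ℝ) * ψ) with hu
  have hu0 : 0 ≤ u := Int.fract_nonneg _
  have hu1 : u < 1 := Int.fract_lt_one _
  set i : ℕ := ⌊u / s⌋₊ with hi
  have hi1 : (i : ℝ) ≤ u / s := Nat.floor_le (div_nonneg hu0 hs.le)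
  have hi2 : u / s < i + 1 := Nat.lt_floor_add_one _
  rw [le_div_iff₀ hs] at hi1
  rw [div_lt_iff₀ hs] at hi2
  have him : i ≤ m := by
    have : (i : ℝ) * s ≤ m * s := by linarith
    have : (i : ℝ) ≤ m := le_of_mul_le_mul_right this hs
    exact_mod_cast this
  have h1 := hx (h0' - i * (a - a')) (by
    have e1 : |h0'| ≤ r * a0 := by
      rw [hh0, abs_neg, abs_of_nonneg (mul_nonneg (Int.natCast_nonneg _) ha0)]
      exact mul_le_mul_of_nonneg_right (by exact_mod_cast hi0) ha0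
    have e2 : |(i : ℤ) * (a - a')| ≤ m * |a - a'| := by
      rw [abs_mul, abs_of_nonneg (Int.natCast_nonneg _)]
      exact mul_le_mul_of_nonneg_right (by exact_mod_cast him) (abs_nonneg _)
    have e3 := abs_sub h0' (i * (a - a'))
    push_cast
    rw [h0]
    linarith) (by
    refine nrm_le_iff.mpr ⟨⌊(h0' : ℝ) * ψ⌋ - i * k, ?_⟩
    have e : ((h0' - i * (a - a') : ℤ) : ℝ) * ψ - ((⌊(h0' : ℝ) * ψ⌋ - i * k : ℤ) : ℝ)
        = u - i * s := by
      have : u = h0' * ψ - ⌊(h0' : ℝ) * ψ⌋ := rfl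
      rw [this]
      push_cast
      have : ((h0' : ℝ) - i * (a - a')) * ψ = h0' * ψ - i * (((a : ℝ) - a') * ψ) := by ring
      rw [this, hk]; ring
    rw [e, abs_of_nonneg (by linarith)]
    linarith)
  have h2 := shift_mem_nsmul ha' him (mul_mem_nsmul ha i)
  have h3 := add_mem_add_nsmul (add_mem_add_nsmul h1 hb) h2
  convert h3 using 1
  rw [Nat.cast_sub him, hh0]
  ring

end Pool.Agent.Lib.MP_137890_nt
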