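import Mathlib

set_option autoImplicit false

open Pointwise

namespace Pool.Agent.Lib.MP_137890_nt

/-- Two consecutive residue classes. -/
def twoRes (g x : ℕ) : Set ℕ := {n | ∃ c : ℕ, n = x + c * g ∨ n = x + 1 + c * g}

lemma twoRes_of_mem {g x : ℕ} : ∀ (j : ℕ) (n : ℕ), n ∈ j • twoRes g x →
    ∃ t c : ℕ, t ≤ j ∧ n = j * x + t + c * g := by
  intro j
  induction j with
  | zero =>
    intro n hn
    simp at hn
    exact ⟨0, 0, le_rfl, by simp [hn]⟩
  | succ j ih =>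
    intro n hn
    rw [succ_nsmul] at hn
    obtain ⟨u, hu, a, ⟨c', ha⟩, rfl⟩ := Set.mem_add.mp hn
    obtain ⟨t, c, ht, rfl⟩ := ih u hu
    rcases ha with rfl | rfl
    · exact ⟨t, c + c', by omega, by ring⟩
    · exact ⟨t + 1, c + c', by omega, by ring⟩

lemma mem_twoRes_zero {g x : ℕ} : ∀ (j t : ℕ), t ≤ j → j * x + t ∈ j • twoRes g x := by
  intro j
  induction j with
  | zero =>
    intro t ht
    have : t = 0 := by omega
    simp [this]
  | succ j ih =>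
    intro t ht
    rw [succ_nsmul]
    rcases Nat.eq_zero_or_pos t with rfl | hpos
    · exact Set.mem_add.mpr ⟨j * x + 0, ih 0 (Nat.zero_le _), x, ⟨0, Or.inl (by simp)⟩, by ring⟩
    · obtain ⟨t', rfl⟩ : ∃ t', t = t' + 1 := ⟨t - 1, by omega⟩
      exact Set.mem_add.mpr ⟨j * x + t', ih t' (by omega), x + 1, ⟨0, Or.inr (by simp)⟩, by ring⟩

lemma mem_twoRes {g x : ℕ} (j t c : ℕ) (hj : 1 ≤ j) (ht : t ≤ j) :
    j * x + t + c * g ∈ j • twoRes g x := by
  obtain ⟨j', rfl⟩ : ∃ j', j = j' + 1 := ⟨j - 1, by omega⟩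
  rw [succ_nsmul]
  rcases Nat.eq_zero_or_pos t with rfl | hpos
  · exact Set.mem_add.mpr ⟨j' * x + 0, mem_twoRes_zero j' 0 (Nat.zero_le _), x + c * g,
      ⟨c, Or.inl rfl⟩, by ring⟩
  · obtain ⟨t', rfl⟩ : ∃ t', t = t' + 1 := ⟨t - 1, by omega⟩
    exact Set.mem_add.mpr ⟨j' * x + t', mem_twoRes_zero j' t' (by omega), x + 1 + c * g,
      ⟨c, Or.inr rfl⟩, by ring⟩

lemma twoRes_cofinite {g x : ℕ} (hg : 2 ≤ g) :
    ∃ N : ℕ, ∀ n, N ≤ n → n ∈ (g - 1) • twoRes g x := by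
  refine ⟨(g - 1) * x, fun n hn => ?_⟩
  obtain ⟨v, rfl⟩ := Nat.exists_eq_add_of_le hn
  have h := mem_twoRes (g := g) (x := x) (g - 1) (v % g) (v / g) (by omega)
    (by have := Nat.mod_lt v (show 0 < g by omega); omega)
  convert h using 1
  have := Nat.mod_add_div v g
  nlinarith

lemma twoRes_not_cofinite {g x k : ℕ} (hk : k + 1 < g) :
    ¬ ∃ N : ℕ, ∀ n, N ≤ n → n ∈ k • twoRes g x := by
  rintro ⟨N, hN⟩
  have hle : N ≤ k * x + (k + 1) + N * g := by nlinarith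
  obtain ⟨t, c, ht, he⟩ := twoRes_of_mem k _ (hN _ hle)
  have h1 : (k + 1 + N * g) % g = (t + c * g) % g := by
    congr 1; omega
  rw [Nat.add_mul_mod_self_right, Nat.add_mul_mod_self_right, Nat.mod_eq_of_lt hk,
    Nat.mod_eq_of_lt (by omega)] at h1
  omega

lemma twoRes_basis (m : ℕ) (hm : 1 ≤ m) :
    ∃ N : ℕ, ∀ n, N ≤ n → ∃ j, j ≤ 3 * m ∧ n ∈ j • twoRes (3 * m * m + 2 * m) (3 * m) := by
  set g := 3 * m * m + 2 * m with hg
  have hg0 : 0 < g := by omega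
  refine ⟨3 * g, fun n hn => ?_⟩
  set v := (n + 4 * m) % g with hv
  set C := (n + 4 * m) / g with hC
  have h1 : v + g * C = n + 4 * m := Nat.mod_add_div _ _
  have hvg : v < g := Nat.mod_lt _ hg0
  have hC3 : 3 ≤ C := by
    rw [hC, Nat.le_div_iff_mul_le hg0]; omega
  set w := v % (3 * m) with hw
  set i := v / (3 * m) with hi
  have h2 : w + 3 * m * i = v := Nat.mod_add_div _ _
  have hw3 : w < 3 * m := Nat.mod_lt _ (by omega)
  have him : i ≤ m := by
    have : i < m + 1 := by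
      rw [hi, Nat.div_lt_iff_lt_mul (by omega)]
      nlinarith
    exact Nat.lt_succ_iff.mp this
  clear hv hC hw hi
  clear_value i w C v
  obtain ⟨C', hC'⟩ : ∃ C', C = C' + 2 := ⟨C - 2, by omega⟩
  by_cases hw2 : w ≤ 2 * m
  · refine ⟨2 * m + i, by omega, ?_⟩
    have h := mem_twoRes (g := g) (x := 3 * m) (2 * m + i) w C' (by omega) (by omega)
    convert h using 1
    rw [hC'] at h1
    nlinarith
  · obtain ⟨t, ht⟩ : ∃ t, w = 2 * m + t := ⟨w - 2 * m, by omega⟩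
    refine ⟨m + i, by omega, ?_⟩
    have h := mem_twoRes (g := g) (x := 3 * m) (m + i) t (C' + 1) (by omega) (by omega)
    convert h using 1
    rw [hC'] at h1
    nlinarith

end Pool.Agent.Lib.MP_137890_nt
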